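import Pool.Agent.Lib.PN93.Defs

/-! Generalities on the index, homogeneous polynomial maps, the Chebyshev bound. -/

namespace Pool.Agent.Lib.PN93
open Finset

section Gen
variable {𝕜 X : Type} [RCLike 𝕜] [NormedAddCommGroup X] [NormedSpace 𝕜 X] {k : ℕ}

abbrev ML (𝕜 X : Type) [RCLike 𝕜] [NormedAddCommGroup X] [NormedSpace 𝕜 X] (k : ℕ) :=
  ContinuousMultilinearMap 𝕜 (fun _ : Fin k => X) X

lemma diag_le (A : ML 𝕜 X k) (x : X) : ‖A fun _ => x‖ ≤ ‖A‖ * ‖x‖ ^ k := by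
  simpa using A.le_opNorm fun _ => x

lemma diag_smul (A : ML 𝕜 X k) (c : 𝕜) (x : X) :
    (A fun _ => c • x) = c ^ k • A fun _ => x := by
  simpa using A.map_smul_univ (fun _ => c) fun _ => x

lemma nRad_nonneg (A : ML 𝕜 X k) : 0 ≤ nRad A :=
  Real.sSup_nonneg (by rintro _ ⟨x, φ, -, -, -, rfl⟩; positivity)

lemma le_nRad1 (A : ML 𝕜 X k) {x : X} {φ : X →L[𝕜] 𝕜} (hx : ‖x‖ = 1) (hφ : ‖φ‖ = 1)
    (h : φ x = 1) : ‖φ (A fun _ => x)‖ ≤ nRad A := by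
  refine le_csSup ⟨‖A‖, ?_⟩ ⟨x, φ, hx, hφ, h, rfl⟩
  rintro _ ⟨x, φ, hx, hφ, -, rfl⟩
  have := φ.le_opNorm (A fun _ => x)
  have h2 := diag_le A x
  simp only [hx, hφ, one_mul, one_pow, mul_one] at this h2
  exact this.trans h2

lemma le_nRad (hk : 1 ≤ k) (A : ML 𝕜 X k) {x : X} {φ : X →L[𝕜] 𝕜} (hφ : ‖φ‖ ≤ 1)
    (h : φ x = (‖x‖ : 𝕜)) : ‖φ (A fun _ => x)‖ ≤ nRad A * ‖x‖ ^ k := by
  by_cases hx : x = 0
  · subst hx
    rw [A.map_coord_zero ⟨0, hk⟩ rfl, map_zero, norm_zero]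
    exact mul_nonneg (nRad_nonneg A) (by positivity)
  have hn : (‖x‖ : 𝕜) ≠ 0 := by simpa using hx
  have hp : 0 < ‖x‖ := norm_pos_iff.mpr hx
  set u : X := (‖x‖ : 𝕜)⁻¹ • x with hu
  have h1 : ‖u‖ = 1 := by simp [hu, norm_smul, hp.ne']
  have h2 : φ u = 1 := by simp [hu, h, hn]
  have h3 : ‖φ‖ = 1 := le_antisymm hφ (by simpa [h1, h2] using φ.le_opNorm u)
  have h4 : x = (‖x‖ : 𝕜) • u := by simp [hu, smul_smul, hn]
  have := le_nRad1 A h1 h3 h2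
  conv_lhs => rw [h4, diag_smul]
  rw [map_smul, norm_smul, norm_pow, RCLike.norm_ofReal, abs_norm, mul_comm]
  gcongr

lemma le_pNorm (A : ML 𝕜 X k) {x : X} (hx : ‖x‖ = 1) : ‖A fun _ => x‖ ≤ pNorm A := by
  refine le_csSup ⟨‖A‖, ?_⟩ ⟨x, hx, rfl⟩
  rintro _ ⟨x, hx, rfl⟩
  simpa [hx] using diag_le A x

/-- an example gives an upper bound for the index -/
lemma ex_norm {C : ℝ} (hC : 0 < C) (A : ML 𝕜 X k) {x : X} (hx : ‖x‖ = 1)
    (h1 : C ≤ ‖A fun _ => x‖) (h2 : ∀ (y : X) (φ : X →L[𝕜] 𝕜), ‖y‖ = 1 → ‖φ‖ = 1 → φ y = 1 →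
      ‖φ (A fun _ => y)‖ ≤ 1) : ∃ B : ML 𝕜 X k, pNorm B = 1 ∧ nRad B ≤ 1 / C := by
  have hN : C ≤ pNorm A := h1.trans (le_pNorm A hx)
  have hp : 0 < pNorm A := hC.trans_le hN
  have e : ∀ y : X, (((pNorm A : 𝕜)⁻¹ • A) fun _ => y) = (pNorm A : 𝕜)⁻¹ • A fun _ => y :=
    fun y => rfl
  have e2 : ‖(pNorm A : 𝕜)⁻¹‖ = (pNorm A)⁻¹ := by simp [hp.le]
  refine ⟨(pNorm A : 𝕜)⁻¹ • A, le_antisymm ?_ ?_, ?_⟩
  · refine csSup_le ⟨_, x, hx, rfl⟩ ?_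
    rintro _ ⟨y, hy, rfl⟩
    rw [e, norm_smul, e2, inv_mul_le_iff₀ hp, mul_one]
    exact le_pNorm A hy
  · have : pNorm A ≤ pNorm A * pNorm ((pNorm A : 𝕜)⁻¹ • A) := by
      refine csSup_le ⟨_, x, hx, rfl⟩ ?_
      rintro _ ⟨y, hy, rfl⟩
      have := le_pNorm ((pNorm A : 𝕜)⁻¹ • A) hy
      rwa [e, norm_smul, e2, inv_mul_le_iff₀ hp] at this
    exact (le_mul_iff_one_le_right hp).mp this
  · refine Real.sSup_le ?_ (by positivity)
    rintro _ ⟨y, φ, hy, hφ, h, rfl⟩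
    rw [e, map_smul, norm_smul, e2]
    calc _ ≤ (pNorm A)⁻¹ * 1 := by gcongr; exact h2 y φ hy hφ h
      _ ≤ 1 / C := by rw [mul_one, one_div]; gcongr

lemma nIdx_le {c : ℝ} (h : ∃ B : ML 𝕜 X k, pNorm B = 1 ∧ nRad B ≤ c) : nIdx 𝕜 X k ≤ c := by
  obtain ⟨B, h1, h2⟩ := h
  refine le_trans (csInf_le ⟨0, ?_⟩ ⟨B, h1, rfl⟩) h2
  rintro _ ⟨A, -, rfl⟩; exact nRad_nonneg A

lemma le_nIdx {c C : ℝ} (hC : 0 < C) (h : ∃ B : ML 𝕜 X k, pNorm B = 1 ∧ nRad B ≤ c)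
    (h2 : ∀ (A : ML 𝕜 X k) (x : X), ‖x‖ = 1 → ‖A fun _ => x‖ ≤ C * nRad A) :
    1 / C ≤ nIdx 𝕜 X k := by
  obtain ⟨B, h1, -⟩ := h
  refine le_csInf ⟨_, B, h1, rfl⟩ ?_
  rintro _ ⟨A, hA, rfl⟩
  rw [div_le_iff₀ hC, ← hA, mul_comm]
  refine Real.sSup_le ?_ (mul_nonneg hC.le (nRad_nonneg A))
  rintro _ ⟨x, hx, rfl⟩
  exact h2 A x hx

/-- `F` is a continuous `k`-homogeneous polynomial map -/
def HP (𝕜 : Type) {X Y : Type} [RCLike 𝕜] [NormedAddCommGroup X] [NormedSpace 𝕜 X]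
    [NormedAddCommGroup Y] [NormedSpace 𝕜 Y] (k : ℕ) (F : X → Y) : Prop :=
  ∃ A : ContinuousMultilinearMap 𝕜 (fun _ : Fin k => X) Y, ∀ x, (A fun _ => x) = F x

variable {Y Z : Type} [NormedAddCommGroup Y] [NormedSpace 𝕜 Y] [NormedAddCommGroup Z]
  [NormedSpace 𝕜 Z]

lemma HP.const (y : Y) : HP 𝕜 0 fun _ : X => y :=
  ⟨ContinuousMultilinearMap.constOfIsEmpty 𝕜 _ y, fun _ => rfl⟩

lemma HP.add {F G : X → Y} (hF : HP 𝕜 k F) (hG : HP 𝕜 k G) : HP 𝕜 k fun x => F x + G x := by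
  obtain ⟨A, hA⟩ := hF; obtain ⟨B, hB⟩ := hG
  exact ⟨A + B, fun x => by simp [hA, hB]⟩

lemma HP.smul {F : X → Y} (c : 𝕜) (hF : HP 𝕜 k F) : HP 𝕜 k fun x => c • F x := by
  obtain ⟨A, hA⟩ := hF
  exact ⟨c • A, fun x => by simp [hA]⟩

lemma HP.bil {F : X → Y} (B : X →L[𝕜] Y →L[𝕜] Z) (hF : HP 𝕜 k F) :
    HP 𝕜 (k+1) fun x => B x (F x) := by
  obtain ⟨A, hA⟩ := hF
  refine ⟨ContinuousLinearMap.uncurryLeft
    (((ContinuousLinearMap.compContinuousMultilinearMapL 𝕜 (fun _ : Fin k => X) Y Z).flip A).comp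
      B), fun x => ?_⟩
  rw [ContinuousLinearMap.uncurryLeft_apply]; simp only [← hA]; rfl

lemma HP.lin (T : X →L[𝕜] Y) : HP 𝕜 1 fun x => T x := by
  simpa using (HP.const (X := X) (1 : 𝕜)).bil
    ((ContinuousLinearMap.lsmul 𝕜 𝕜 : 𝕜 →L[𝕜] Y →L[𝕜] Y).flip.comp T)

lemma HP.mul {F : X → Y} (l : X →L[𝕜] 𝕜) (hF : HP 𝕜 k F) : HP 𝕜 (k+1) fun x => l x • F x :=
  hF.bil ((ContinuousLinearMap.lsmul 𝕜 𝕜 : 𝕜 →L[𝕜] Y →L[𝕜] Y).comp l)

lemma HP.pow {F : X → Y} (l : X →L[𝕜] 𝕜) (hF : HP 𝕜 k F) (i : ℕ) :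
    HP 𝕜 (k+i) fun x => l x ^ i • F x := by
  induction i with
  | zero => simpa using hF
  | succ i ih => simpa [smul_smul, pow_succ', add_assoc] using ih.mul l

lemma HP.mono (l l' : X →L[𝕜] 𝕜) (T : X →L[𝕜] Y) (c : 𝕜) (i j : ℕ) (h : i + j + 1 = k) :
    HP 𝕜 k fun x => (c * (l x ^ i * l' x ^ j)) • T x := by
  have := (((HP.lin T).pow l' j).pow l i).smul c
  rw [show 1 + j + i = k by omega] at this
  simpa [smul_smul] using this
end Gen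

/-- the homogeneous Chebyshev polynomial `f^k T_k(a/f)` -/
def Hh {R : Type} [CommRing R] (a f : R) : ℕ → R
  | 0 => 1
  | 1 => a
  | k+2 => 2 * a * Hh a f (k+1) - f ^ 2 * Hh a f k

theorem Hh.rlz : True := by have := @Hh.eq_def; trivial

open Polynomial Polynomial.Chebyshev

lemma Hh_T (s x : ℝ) (k : ℕ) : s ^ k * (T ℝ k).eval x = Hh (s * x) s k := by
  induction k using Nat.twoStepInduction with
  | zero => simp [Hh]
  | one => simp [Hh]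
  | more k h0 h1 =>
    rw [Hh, ← h0, ← h1]; push_cast; rw [T_add_two]; simp; ring

lemma Hh_mono {s : ℝ} (hs : |s| ≤ 1) (k : ℕ) :
    0 ≤ Hh 1 s k ∧ Hh 1 s k ≤ Hh 1 s (k+1) ∧ Hh 1 s (k+1) ≤ 2 ^ k := by
  have h2 : s ^ 2 ≤ 1 := by rwa [sq_le_one_iff_abs_le_one]
  induction k with
  | zero => simp [Hh]
  | succ k ih =>
    obtain ⟨a, b, c⟩ := ih
    have := mul_nonneg (sq_nonneg s) a
    refine ⟨a.trans b, ?_, ?_⟩ <;> rw [Hh]
    · nlinarith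
    · rw [pow_succ 2 k]; linarith

lemma Hh_cont (k : ℕ) : Continuous fun s : ℝ => Hh 1 s k := by
  induction k using Nat.twoStepInduction with
  | zero => simpa [Hh] using continuous_const
  | one => simpa [Hh] using continuous_const
  | more k h0 h1 => simp only [Hh]; fun_prop

lemma Hh_neg (s : ℝ) (k : ℕ) : Hh 1 (-s) k = Hh 1 s k := by
  induction k using Nat.twoStepInduction with
  | zero => simp [Hh]
  | one => simp [Hh]
  | more k h0 h1 => simp only [Hh, h0, h1, neg_sq]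

lemma poly_cheb {k : ℕ} {q : ℝ[X]} (hq : q.degree ≤ k) {v : ℝ} (hv : 0 ≤ v)
    (hb : ∀ x ∈ Set.Icc (-1 : ℝ) 1, |q.eval x| ≤ v) {x : ℝ} (hx : 1 ≤ x) :
    |q.eval x| ≤ v * (T ℝ k).eval x := by
  have key : ∀ w c : ℝ, v < w → |c| = 1 → c * q.eval x ≤ w * (T ℝ k).eval x := by
    intro w c hw hc
    have hw0 : 0 < w := hv.trans_lt hw
    have := eval_iterate_derivative_le_of_forall_abs_le_one (n := k) (k := 0)
      (P := (c / w) • q) hx ((degree_smul_le _ _).trans hq) fun y hy => by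
        rw [eval_smul, smul_eq_mul, abs_mul, abs_div, hc, abs_of_pos hw0, one_div,
          inv_mul_le_iff₀ hw0, mul_one]
        exact (hb y hy).trans hw.le
    simp only [Function.iterate_zero, id, eval_smul, smul_eq_mul] at this
    rwa [div_mul_eq_mul_div, div_le_iff₀ hw0, mul_comm _ w] at this
  have hc : Continuous fun w : ℝ => w * (T ℝ k).eval x := by fun_prop
  refine ge_of_tendsto (hc.continuousWithinAt (s := Set.Ioi v) (x := v)) ?_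
  filter_upwards [self_mem_nhdsWithin] with w hw
  exact abs_le.mpr ⟨by have := key w (-1) hw (by simp); linarith,
    by have := key w 1 hw (by simp); linarith⟩

variable {X : Type} [NormedAddCommGroup X] [NormedSpace ℝ X] {k : ℕ}

lemma exists_poly (A : ML ℝ X k) (φ : X →L[ℝ] ℝ) (e₁ e₂ : X) :
    ∃ q : ℝ[X], q.degree ≤ k ∧ ∀ t : ℝ, q.eval t = φ (A fun _ => e₁ + t • e₂) := by
  refine ⟨∑ S : Finset (Fin k), monomial S.card (φ (A (S.piecewise (fun _ => e₂) fun _ => e₁))),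
    (degree_sum_le _ _).trans (Finset.sup_le fun S _ => (degree_monomial_le _ _).trans ?_),
    fun t => ?_⟩
  · exact_mod_cast (by simpa using S.card_le_univ : S.card ≤ k)
  have := A.map_add_univ (fun _ => t • e₂) fun _ => e₁
  rw [show (fun _ : Fin k => e₁ + t • e₂) = (fun _ => t • e₂) + fun _ => e₁ from
    funext fun _ => add_comm _ _, this, eval_finsetSum, map_sum]
  refine sum_congr rfl fun S _ => ?_
  have h2 := A.map_smul_univ (fun i => if i ∈ S then t else 1)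
    (S.piecewise (fun _ => e₂) fun _ => e₁)
  rw [show (S.piecewise (fun _ => t • e₂) fun _ => e₁) = fun i => (if i ∈ S then t else 1) •
    S.piecewise (fun _ => e₂) (fun _ => e₁) i from funext fun i => by
      by_cases hi : i ∈ S <;> simp [hi], h2]
  simp [mul_comm]

lemma cheb0 (A : ML ℝ X k) (φ : X →L[ℝ] ℝ) (e₁ e₂ : X) {v : ℝ} (hv : 0 ≤ v)
    (hb : ∀ t ∈ Set.Icc (-1 : ℝ) 1, |φ (A fun _ => e₁ + t • e₂)| ≤ v) {s : ℝ} (h0 : 0 ≤ s)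
    (h1 : s ≤ 1) : |φ (A fun _ => s • e₁ + e₂)| ≤ v * Hh 1 s k := by
  obtain ⟨q, hq, he⟩ := exists_poly A φ e₁ e₂
  have key : ∀ s : ℝ, 0 < s → s ≤ 1 → |φ (A fun _ => s • e₁ + e₂)| ≤ v * Hh 1 s k := by
    intro s h0 h1
    have := poly_cheb hq hv (fun x hx => he x ▸ hb x hx) ((one_le_inv₀ h0).mpr h1)
    have e : s • e₁ + e₂ = s • (e₁ + s⁻¹ • e₂) := by simp [smul_smul, h0.ne']
    have e2 := Hh_T s s⁻¹ k
    rw [mul_inv_cancel₀ h0.ne'] at e2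
    rw [e, diag_smul, map_smul, ← he, smul_eq_mul, abs_mul, abs_of_pos (pow_pos h0 k), ← e2,
      mul_left_comm]
    gcongr
  rcases h0.eq_or_lt with rfl | h0
  · have c1 : Continuous fun s : ℝ => |φ (A fun _ => s • e₁ + e₂)| :=
      (φ.continuous.comp (A.cont.comp (by fun_prop))).abs
    have c2 : Continuous fun s : ℝ => v * Hh 1 s k := continuous_const.mul (Hh_cont k)
    refine le_of_tendsto_of_tendsto (c1.continuousWithinAt (s := Set.Ioi 0) (x := 0))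
      c2.continuousWithinAt ?_
    filter_upwards [Ioc_mem_nhdsGT one_pos] with s hs using key s hs.1 hs.2
  · exact key s h0 h1

/-- Chebyshev bound on the absolutely convex hull of a face -/
lemma cheb (hk : 1 ≤ k) (A : ML ℝ X k) {φ : X →L[ℝ] ℝ} (hφ : ‖φ‖ ≤ 1) {u₁ u₂ : X}
    (n₁ : ‖u₁‖ ≤ 1) (n₂ : ‖u₂‖ ≤ 1) (p₁ : φ u₁ = 1) (p₂ : φ u₂ = 1) {s t : ℝ} (hs : 0 ≤ s)
    (ht : 0 ≤ t) (hst : s + t = 1) :
    |φ (A fun _ => s • u₁ - t • u₂)| ≤ nRad A * Hh 1 (s - t) k := by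
  wlog h : t ≤ s generalizing u₁ u₂ s t
  · have := this n₂ n₁ p₂ p₁ ht hs (by linarith) (by linarith)
    rwa [← neg_sub s, Hh_neg, ← neg_sub (s • u₁), ← neg_one_smul ℝ, diag_smul, map_smul,
      smul_eq_mul, abs_mul, abs_neg_one_pow, one_mul] at this
  have := cheb0 A φ ((1/2 : ℝ) • (u₁ + u₂)) ((1/2 : ℝ) • (u₁ - u₂)) (nRad_nonneg A) (s := s - t)
    (fun τ hτ => ?_) (by linarith) (by linarith)
  · rwa [show (s - t) • (1/2 : ℝ) • (u₁ + u₂) + (1/2 : ℝ) • (u₁ - u₂) = s • u₁ - t • u₂ by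
      obtain rfl : t = 1 - s := by linarith
      module] at this
  set y := (1/2 : ℝ) • (u₁ + u₂) + τ • (1/2 : ℝ) • (u₁ - u₂) with hy
  have e : y = ((1 + τ) / 2) • u₁ + ((1 - τ) / 2) • u₂ := by rw [hy]; module
  have a1 : φ y = 1 := by rw [e]; simp [p₁, p₂]; ring
  have a2 : ‖y‖ ≤ 1 := by
    have b1 : 0 ≤ (1 + τ) / 2 := by linarith [hτ.1]
    have b2 : 0 ≤ (1 - τ) / 2 := by linarith [hτ.2]
    rw [e]
    refine (norm_add_le _ _).trans ?_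
    rw [norm_smul, norm_smul, Real.norm_of_nonneg b1, Real.norm_of_nonneg b2]
    nlinarith
  have a3 : ‖y‖ = 1 := le_antisymm a2 (by
    have := φ.le_opNorm y
    rw [a1, norm_one] at this
    nlinarith [norm_nonneg y])
  simpa [a3] using le_nRad hk A hφ (x := y) (by simp [a1, a3])

end Pool.Agent.Lib.PN93
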