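import Pool.Agent.Lib.PN93.Basic

/-! The real space `C(K)`: the index of order `k` is `2^(1-k)`. -/

namespace Pool.Agent.Lib.PN93

variable {K : Type} [TopologicalSpace K] [CompactSpace K]

lemma ck_lower {k : ℕ} (hk : 1 ≤ k) (A : ML ℝ C(K, ℝ) k) (f : C(K, ℝ)) (hf : ‖f‖ = 1) :
    ‖A fun _ => f‖ ≤ 2 ^ (k - 1) * nRad A := by
  have hv := nRad_nonneg A
  refine (ContinuousMap.norm_le _ (by positivity)).mpr fun x => ?_
  have hb : ∀ y, |f y| ≤ 1 := fun y => hf ▸ f.norm_coe_le_norm y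
  set φ : C(K, ℝ) →L[ℝ] ℝ := ContinuousMap.evalCLM ℝ x with hφ
  have hφ1 : ‖φ‖ ≤ 1 := φ.opNorm_le_bound zero_le_one fun g => by
    simpa [hφ] using g.norm_coe_le_norm x
  have ev : ∀ g : C(K, ℝ), φ g = g x := fun g => rfl
  obtain ⟨s, t, hs, ht, hst, u₁, u₂, n₁, n₂, p₁, p₂, e⟩ : ∃ s t : ℝ, 0 ≤ s ∧ 0 ≤ t ∧ s + t = 1 ∧
      ∃ u₁ u₂ : C(K, ℝ), ‖u₁‖ ≤ 1 ∧ ‖u₂‖ ≤ 1 ∧ u₁ x = 1 ∧ u₂ x = 1 ∧ f = s • u₁ - t • u₂ := by
    obtain ⟨h1, h2⟩ := abs_le.mp (hb x)
    rcases h2.eq_or_lt with h2 | h2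
    · exact ⟨1, 0, zero_le_one, le_rfl, by simp, f, f, hf.le, hf.le, h2, h2, by simp⟩
    rcases h1.eq_or_lt with h1 | h1
    · exact ⟨0, 1, le_rfl, zero_le_one, by simp, -f, -f, by simp [hf], by simp [hf],
        by simp [← h1], by simp [← h1], by simp⟩
    obtain ⟨s, hs⟩ : ∃ s, s = (1 + f x) / 2 := ⟨_, rfl⟩
    obtain ⟨t, ht⟩ : ∃ t, t = (1 - f x) / 2 := ⟨_, rfl⟩
    have s0 : 0 < s := by linarith
    have t0 : 0 < t := by linarith
    refine ⟨s, t, s0.le, t0.le, by linarith, ⟨fun y => min 1 ((f y + t) / s), by fun_prop⟩,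
      ⟨fun y => min 1 ((s - f y) / t), by fun_prop⟩, ?_, ?_, ?_, ?_, ?_⟩
    · refine (ContinuousMap.norm_le _ zero_le_one).mpr fun y => abs_le.mpr ⟨le_min (by norm_num) ?_,
        min_le_left _ _⟩
      rw [le_div_iff₀ s0]; linarith [(abs_le.mp (hb y)).1]
    · refine (ContinuousMap.norm_le _ zero_le_one).mpr fun y => abs_le.mpr ⟨le_min (by norm_num) ?_,
        min_le_left _ _⟩
      rw [le_div_iff₀ t0]; linarith [(abs_le.mp (hb y)).2]
    · exact min_eq_left (by rw [le_div_iff₀ s0]; linarith)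
    · exact min_eq_left (by rw [le_div_iff₀ t0]; linarith)
    · ext y
      change f y = s * min 1 ((f y + t) / s) - t * min 1 ((s - f y) / t)
      rw [mul_min_of_nonneg _ _ s0.le, mul_min_of_nonneg _ _ t0.le, mul_div_cancel₀ _ s0.ne',
        mul_div_cancel₀ _ t0.ne', mul_one, mul_one]
      rcases le_total s (f y + t) with h | h
      · rw [min_eq_left h, min_eq_right (by linarith)]; ring
      · rw [min_eq_right h, min_eq_left (by linarith)]; ring
  have := cheb hk A hφ1 n₁ n₂ p₁ p₂ hs ht hst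
  rw [← e, ev] at this
  obtain ⟨j, rfl⟩ : ∃ j, k = j + 1 := ⟨k - 1, by omega⟩
  have h3 := (Hh_mono (s := s - t) (abs_le.mpr ⟨by linarith, by linarith⟩) j).2.2
  rw [Real.norm_eq_abs, mul_comm]
  exact this.trans (by simpa using mul_le_mul_of_nonneg_left h3 hv)

/-- the extremal polynomial -/
noncomputable def chP (x : K) (k : ℕ) (f : C(K, ℝ)) : C(K, ℝ) := Hh (f x • 1) f k

lemma chP_hp (x : K) (k : ℕ) : HP ℝ k (chP x k) := by
  induction k using Nat.twoStepInduction with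
  | zero => exact HP.const 1
  | one => exact (HP.const (1 : C(K, ℝ))).mul (ContinuousMap.evalCLM ℝ x)
  | more k h0 h1 =>
    have a := (h1.mul (ContinuousMap.evalCLM ℝ x)).smul 2
    have b := ((h0.bil (ContinuousLinearMap.mul ℝ C(K, ℝ))).bil
      (ContinuousLinearMap.mul ℝ C(K, ℝ))).smul (-1)
    convert a.add b using 2 with f
    ext y
    simp [chP, Hh, two_mul]; ring

lemma kill {f : C(K, ℝ)} {φ : C(K, ℝ) →L[ℝ] ℝ} (hf : ‖f‖ = 1) (hφ : ‖φ‖ = 1) (h : φ f = 1)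
    (u : C(K, ℝ)) : φ ((1 - f ^ 2) * u) = 0 := by
  have key : ∀ u : C(K, ℝ), φ ((1 - f ^ 2) * u) ≤ 0 := fun u => by
    have hp : 0 < 2 * ‖u‖ + 1 := by positivity
    have h1 : ‖f + (2 * ‖u‖ + 1)⁻¹ • ((1 - f ^ 2) * u)‖ ≤ 1 := by
      refine (ContinuousMap.norm_le _ zero_le_one).mpr fun y => ?_
      have a : |f y| ≤ 1 := hf ▸ f.norm_coe_le_norm y
      have b : |(2 * ‖u‖ + 1)⁻¹ * u y| ≤ 1 / 2 := by
        have : |u y| ≤ ‖u‖ := u.norm_coe_le_norm y
        rw [abs_mul, abs_of_pos (inv_pos.mpr hp), inv_mul_le_iff₀ hp]; linarith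
      have e : (f + (2 * ‖u‖ + 1)⁻¹ • ((1 - f ^ 2) * u) : C(K, ℝ)) y =
        f y + (1 - f y ^ 2) * ((2 * ‖u‖ + 1)⁻¹ * u y) := by simp; ring
      rw [e, Real.norm_eq_abs]
      obtain ⟨a1, a2⟩ := abs_le.mp a
      obtain ⟨b1, b2⟩ := abs_le.mp b
      have c : 0 ≤ 1 - f y ^ 2 := by nlinarith
      exact abs_le.mpr ⟨by nlinarith [mul_le_mul_of_nonneg_left b1 c],
        by nlinarith [mul_le_mul_of_nonneg_left b2 c]⟩
    have h2 := (le_abs_self _).trans (φ.le_of_opNorm_le_of_le hφ.le h1)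
    rw [map_add, h, map_smul, smul_eq_mul] at h2
    have := inv_pos.mpr hp
    nlinarith
  have := key (-u)
  rw [mul_neg, map_neg] at this
  linarith [key u]

lemma chP_mod (x : K) (f : C(K, ℝ)) (k : ℕ) :
    ∃ u, chP x k f = (Polynomial.Chebyshev.T ℝ k).eval (f x) • 1 + (1 - f ^ 2) * u := by
  induction k using Nat.twoStepInduction with
  | zero => exact ⟨0, by simp [chP, Hh]⟩
  | one => exact ⟨0, by simp [chP, Hh]⟩
  | more k h0 h1 =>
    obtain ⟨u, hu⟩ := h0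
    obtain ⟨w, hw⟩ := h1
    refine ⟨(2 * f x) • w - u + chP x k f, ?_⟩
    have : chP x (k+2) f = 2 * (f x • 1) * chP x (k+1) f - f ^ 2 * chP x k f := rfl
    push_cast at hw ⊢
    rw [this, hw, Polynomial.Chebyshev.T_add_two]
    ext y
    have := congrArg (· y) hu
    simp [two_mul] at this ⊢
    linear_combination (-1) * this

lemma Hh_zero (j : ℕ) : Hh (1 : ℝ) 0 (j+1) = 2 ^ j := by
  induction j with
  | zero => rfl
  | succ j ih => rw [Hh, ih]; ring

lemma Hh_apply (x y : K) (f : C(K, ℝ)) (k : ℕ) : chP x k f y = Hh (f x) (f y) k := by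
  induction k using Nat.twoStepInduction with
  | zero => simp [chP, Hh]
  | one => simp [chP, Hh]
  | more k h0 h1 => rw [Hh, ← h0, ← h1]; simp [chP, Hh, two_mul, add_mul]

theorem ck_index [T2Space K] [Nontrivial K] {k : ℕ} (hk : 1 ≤ k) :
    nIdx ℝ C(K, ℝ) k = 1 / 2 ^ (k - 1) := by
  obtain ⟨x, y, hxy⟩ := exists_pair_ne K
  obtain ⟨f, f0, f1, fb⟩ := exists_continuous_zero_one_of_isClosed (isClosed_singleton (x := y))
    (isClosed_singleton (x := x)) (by simpa using hxy.symm)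
  have g0 : f y = 0 := f0 rfl
  have g1 : f x = 1 := f1 rfl
  have hf : ‖f‖ = 1 := le_antisymm ((ContinuousMap.norm_le _ zero_le_one).mpr fun z =>
    abs_le.mpr ⟨by linarith [(fb z).1], (fb z).2⟩) (by simpa [g1] using f.norm_coe_le_norm x)
  obtain ⟨A, hA⟩ := chP_hp x k
  have ex := ex_norm (C := 2 ^ (k - 1)) (by positivity) A hf (by
    obtain ⟨j, rfl⟩ : ∃ j, k = j + 1 := ⟨k - 1, by omega⟩
    have := (chP x (j+1) f).norm_coe_le_norm y
    rw [Hh_apply, g0, g1, Hh_zero] at this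
    simpa [hA] using this) fun g φ hg hφ h => by
      obtain ⟨u, hu⟩ := chP_mod x g k
      rw [hA, hu, map_add, kill hg hφ h, add_zero, map_smul, norm_smul]
      have a : |g x| ≤ 1 := hg ▸ g.norm_coe_le_norm x
      have b := Polynomial.Chebyshev.abs_eval_T_real_le_one (k : ℤ) a
      have c : ‖φ 1‖ ≤ 1 := by
        have := φ.le_opNorm 1
        have h1 : ‖(1 : C(K, ℝ))‖ ≤ 1 := (ContinuousMap.norm_le _ zero_le_one).mpr fun z => by simp
        rw [hφ, one_mul] at this; exact this.trans h1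
      exact mul_le_one₀ b (norm_nonneg _) c
  exact le_antisymm (nIdx_le ex) (le_nIdx (by positivity) ex (ck_lower hk))

end Pool.Agent.Lib.PN93
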