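import Mathlib

/-! A complex quadratic form bounded on the positive cone. -/

namespace Pool.Agent.Lib.PN93
open Finset

variable {I : Type} [Fintype I]

/-- the bilinear form of a matrix -/
def bf (B : I → I → ℂ) (x y : I → ℂ) : ℂ := ∑ j, ∑ k, x j * y k * B j k

lemma bf_expand (B : I → I → ℂ) (x y : I → ℂ) (c : ℂ) :
    bf B (fun j => x j + c * y j) (fun j => x j + c * y j) =
      bf B x x + c * (bf B x y + bf B y x) + c ^ 2 * bf B y y := by
  simp only [bf, mul_add, mul_sum, ← sum_add_distrib]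
  exact sum_congr rfl fun j _ => sum_congr rfl fun k _ => by ring

lemma bf_smul (B : I → I → ℂ) (x : I → ℂ) (c : ℂ) :
    bf B (fun j => c * x j) (fun j => c * x j) = c ^ 2 * bf B x x := by
  simpa [bf] using bf_expand B 0 x c

variable {B : I → I → ℂ} {v : ℝ}

lemma mid (H : ∀ z : I → ℝ, (∀ j, 0 ≤ z j) → ‖bf B (fun j => z j) fun j => z j‖ ≤ v * (∑ j, z j) ^ 2)
    (x : I → ℂ) (hx : ∑ j, ‖x j‖ = 1) : ‖bf B x x‖ ≤ v * (2 + ‖∑ j, x j‖) := by
  classical
  have h1 : ∀ j, ‖B j j‖ ≤ v := fun j => by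
    simpa [bf, Pi.single_apply, apply_ite, ite_mul] using H (Pi.single j 1) fun i => by
      rw [Pi.single_apply]; split_ifs <;> norm_num
  have h2 : ∀ j k, ‖B j j + B k k + B j k + B k j‖ ≤ 4 * v := fun j k => by
    have := H (Pi.single j 1 + Pi.single k 1) fun i => by
      simp only [Pi.add_apply, Pi.single_apply]; split_ifs <;> norm_num
    simp only [Pi.add_apply, sum_add_distrib, sum_pi_single', mem_univ, if_true] at this
    have e1 : ∀ j k : I, bf B (fun i => ((Pi.single j 1 : I → ℝ) i : ℂ))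
        (fun i => ((Pi.single k 1 : I → ℝ) i : ℂ)) = B j k := fun j k => by
      simp [bf, Pi.single_apply, apply_ite, ite_mul]
    have e2 := bf_expand B (fun i => ((Pi.single j 1 : I → ℝ) i : ℂ))
      (fun i => ((Pi.single k 1 : I → ℝ) i : ℂ)) 1
    simp only [one_mul, e1, one_pow] at e2
    push_cast at this
    rw [e2, show B j j + (B j k + B k j) + B k k = B j j + B k k + B j k + B k j by ring] at this
    linarith
  have e : bf B x x = (1 / 2) * ∑ j, ∑ k, x j * x k * (B j j + B k k + B j k + B k j) -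
      (∑ j, x j) * ∑ j, x j * B j j := by
    have a : ∑ j, ∑ k, x j * x k * B k j = bf B x x := by
      rw [sum_comm]; exact sum_congr rfl fun j _ => sum_congr rfl fun k _ => by ring
    have b : ∑ j, ∑ k, x j * x k * B j j = (∑ j, x j) * ∑ j, x j * B j j := by
      rw [sum_mul_sum, sum_comm]; exact sum_congr rfl fun j _ => sum_congr rfl fun k _ => by ring
    have c : ∑ j, ∑ k, x j * x k * B k k = (∑ j, x j) * ∑ j, x j * B j j := by
      rw [sum_mul_sum]; exact sum_congr rfl fun j _ => sum_congr rfl fun k _ => by ring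
    simp only [mul_add, sum_add_distrib, a, b, c]
    rw [← bf]; ring
  have b1 : ‖∑ j, ∑ k, x j * x k * (B j j + B k k + B j k + B k j)‖ ≤ 4 * v := by
    calc _ ≤ ∑ j, ∑ k, ‖x j‖ * ‖x k‖ * (4 * v) :=
          norm_sum_le_of_le _ fun j _ => norm_sum_le_of_le _ fun k _ => by
            rw [norm_mul, norm_mul]; gcongr; exact h2 j k
      _ = _ := by simp only [← sum_mul, ← mul_sum, hx, one_mul]
  have b2 : ‖∑ j, x j * B j j‖ ≤ v := by
    calc _ ≤ ∑ j, ‖x j‖ * v := norm_sum_le_of_le _ fun j _ => by rw [norm_mul]; gcongr; exact h1 j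
      _ = _ := by rw [← sum_mul, hx, one_mul]
  rw [e]
  refine (norm_sub_le _ _).trans ?_
  rw [norm_mul, norm_mul]
  have := mul_le_mul_of_nonneg_left b2 (norm_nonneg (∑ j, x j))
  norm_num
  linarith

lemma first (H : ∀ z : I → ℝ, (∀ j, 0 ≤ z j) →
      ‖bf B (fun j => z j) fun j => z j‖ ≤ v * (∑ j, z j) ^ 2)
    (x : I → ℂ) (hx : ∑ j, ‖x j‖ = 1) :
    ‖bf B x (fun j => ‖x j‖) + bf B (fun j => ‖x j‖) x‖ ≤ v * (2 + ‖∑ j, x j‖ ^ 2) := by
  have h : ∀ a : I → ℝ, (∀ j, |a j| ≤ ‖x j‖) →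
      ‖bf B (fun j => a j) (fun j => ‖x j‖) + bf B (fun j => ‖x j‖) fun j => a j‖ ≤
        v * (1 + (∑ j, a j) ^ 2) := fun a ha => by
    have h1 := H (fun j => ‖x j‖ + a j) fun j => by linarith [(abs_le.mp (ha j)).1]
    have h2 := H (fun j => ‖x j‖ - a j) fun j => by linarith [(abs_le.mp (ha j)).2]
    have e1 := bf_expand B (fun j => ‖x j‖) (fun j => a j) 1
    have e2 := bf_expand B (fun j => ‖x j‖) (fun j => a j) (-1)
    simp only [one_mul, neg_mul, ← sub_eq_add_neg] at e1 e2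
    simp only [sum_add_distrib, sum_sub_distrib, hx] at h1 h2
    push_cast at h1 h2
    have := norm_sub_le_of_le h1 h2
    rw [e1, e2, show ∀ p q r : ℂ, p + q + 1 ^ 2 * r - (p - q + (-1) ^ 2 * r) = 2 * q from
      fun _ _ _ => by ring, norm_mul, add_comm] at this
    norm_num at this
    linarith
  have h1 := h (fun j => (x j).re) fun j => Complex.abs_re_le_norm _
  have h2 := h (fun j => (x j).im) fun j => Complex.abs_im_le_norm _
  have e : bf B x (fun j => ‖x j‖) + bf B (fun j => ‖x j‖) x =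
      (bf B (fun j => (x j).re) (fun j => ‖x j‖) + bf B (fun j => ‖x j‖) fun j => (x j).re) +
      Complex.I * (bf B (fun j => (x j).im) (fun j => ‖x j‖) +
        bf B (fun j => ‖x j‖) fun j => (x j).im) := by
    simp only [bf, mul_add, mul_sum, ← sum_add_distrib]
    refine sum_congr rfl fun j _ => sum_congr rfl fun k _ => ?_
    linear_combination (-(‖x k‖ : ℂ) * B j k) * Complex.re_add_im (x j) -
      ((‖x j‖ : ℂ) * B j k) * Complex.re_add_im (x k)
  rw [e, Complex.sq_norm, Complex.normSq_apply, Complex.re_sum, Complex.im_sum]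
  refine (norm_add_le _ _).trans ?_
  rw [norm_mul, Complex.norm_I, one_mul]
  linarith

lemma kkt {M : ℝ} (hM : ∀ y : I → ℂ, ‖bf B y y‖ ≤ M * (∑ j, ‖y j‖) ^ 2) (x : I → ℂ)
    (hx : ∑ j, ‖x j‖ = 1) (h : ‖bf B x x‖ = M) :
    2 * M * ‖∑ j, x j‖ ≤ ‖bf B x (fun j => ‖x j‖) + bf B (fun j => ‖x j‖) x‖ := by
  have M0 : 0 ≤ M := h ▸ norm_nonneg _
  obtain ⟨l, hl, e⟩ := Complex.exists_norm_mul_eq_self (∑ j, x j)
  set β := bf B x (fun j => ‖x j‖) + bf B (fun j => ‖x j‖) x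
  set μ := ‖∑ j, x j‖ with hμ
  have μ1 : μ ≤ 1 := hx ▸ norm_sum_le _ _
  have μ0 : 0 ≤ μ := norm_nonneg _
  refine le_of_forall_pos_le_add fun δ hδ => ?_
  obtain ⟨ε, ε0, ε1, ε2⟩ : ∃ ε : ℝ, 0 < ε ∧ ε ≤ 1 ∧ ε * (4 * M) ≤ δ :=
    ⟨min 1 (δ / (4 * M + 1)), by positivity, min_le_left _ _, by
      have : min 1 (δ / (4 * M + 1)) ≤ δ / (4 * M + 1) := min_le_right _ _
      rw [le_div_iff₀ (by positivity)] at this
      have : 0 < min 1 (δ / (4 * M + 1)) := by positivity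
      nlinarith⟩
  have a1 : ∀ j, ‖x j + -(ε * l) * ‖x j‖‖ ≤
      ‖x j‖ * (1 + ε ^ 2 / 2) - ε * ((starRingEnd ℂ) l * x j).re := fun j => by
    rcases (norm_nonneg (x j)).eq_or_lt with h0 | h0
    · simp [norm_eq_zero.mp h0.symm]
    have h1 : ‖x j + -(ε * l) * ‖x j‖‖ ^ 2 =
        ‖x j‖ ^ 2 * (1 + ε ^ 2) - 2 * ε * ‖x j‖ * ((starRingEnd ℂ) l * x j).re := by
      have h2 : l.re * l.re + l.im * l.im = 1 := by
        rw [← Complex.normSq_apply, ← Complex.sq_norm, hl, one_pow]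
      have h3 := Complex.sq_norm (x j)
      rw [Complex.normSq_apply] at h3
      rw [Complex.sq_norm, Complex.normSq_apply]
      simp
      linear_combination (ε ^ 2 * ‖x j‖ ^ 2) * h2 - h3
    refine le_of_mul_le_mul_left ?_ h0
    nlinarith [sq_nonneg (‖x j‖ - ‖x j + -(ε * l) * ‖x j‖‖)]
  have a2 : ∑ j, ‖x j + -(ε * l) * ‖x j‖‖ ≤ 1 + ε ^ 2 / 2 - ε * μ := by
    refine (sum_le_sum fun j _ => a1 j).trans_eq ?_
    rw [sum_sub_distrib, ← sum_mul, hx, ← mul_sum, ← Complex.re_sum, ← mul_sum, ← e,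
      ← mul_assoc, Complex.conj_mul', hl]
    simp
  have a3 := hM fun j => x j + -(ε * l) * ‖x j‖
  have a4 := hM fun j => ‖x j‖
  simp only [Complex.norm_real, norm_norm, hx, one_pow, mul_one] at a4
  rw [bf_expand] at a3
  have a5 : M ≤ M * (1 + ε ^ 2 / 2 - ε * μ) ^ 2 + ε * ‖β‖ + ε ^ 2 * M := by
    have b1 : ‖-(ε * l : ℂ) * β‖ = ε * ‖β‖ := by simp [hl, ε0.le]
    have b2 : ‖(-(ε * l : ℂ)) ^ 2 * bf B (fun j => ‖x j‖) fun j => ‖x j‖‖ ≤ ε ^ 2 * M := by
      simp only [norm_mul, norm_pow, norm_neg, hl, mul_one, Complex.norm_real, Real.norm_eq_abs,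
        sq_abs]
      gcongr
    have b3 := norm_sub_le_of_le (norm_sub_le_of_le a3 b2) b1.le
    rw [add_sub_cancel_right, add_sub_cancel_right, h] at b3
    have : (∑ j, ‖x j + -(ε * l) * ‖x j‖‖) ^ 2 ≤ (1 + ε ^ 2 / 2 - ε * μ) ^ 2 := by
      gcongr
    nlinarith
  have a6 : (1 + ε ^ 2 / 2 - ε * μ) ^ 2 ≤ 1 - 2 * ε * μ + 3 * ε ^ 2 := by
    have : ε ^ 2 ≤ 1 := by nlinarith
    have : μ ^ 2 ≤ 1 := by nlinarith
    have : 0 ≤ ε ^ 3 * μ := by positivity
    nlinarith [sq_nonneg ε]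
  refine le_of_mul_le_mul_left ?_ ε0
  nlinarith [mul_le_mul_of_nonneg_left a6 M0]

theorem sqrt_six (hv : 0 ≤ v) (H : ∀ z : I → ℝ, (∀ j, 0 ≤ z j) →
      ‖bf B (fun j => z j) fun j => z j‖ ≤ v * (∑ j, z j) ^ 2) (y : I → ℂ) :
    ‖bf B y y‖ ≤ √6 * v * (∑ j, ‖y j‖) ^ 2 := by
  have hc : IsCompact {x : I → ℂ | ∑ j, ‖x j‖ ≤ 1} :=
    Metric.isCompact_of_isClosed_isBounded (isClosed_le (by fun_prop) continuous_const)
      ((Metric.isBounded_closedBall (x := 0) (r := 1)).subset fun x hx => by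
        rw [mem_closedBall_zero_iff, pi_norm_le_iff_of_nonneg zero_le_one]
        exact fun j => (single_le_sum (fun j _ => norm_nonneg (x j)) (mem_univ j)).trans hx)
  obtain ⟨x, hx, hm⟩ := hc.exists_isMaxOn ⟨0, by simp⟩
    (f := fun x => ‖bf B x x‖) (by unfold bf; fun_prop)
  obtain ⟨M, hMe⟩ : ∃ M, ‖bf B x x‖ = M := ⟨_, rfl⟩
  have M0 : 0 ≤ M := hMe ▸ norm_nonneg _
  have hM : ∀ y : I → ℂ, ‖bf B y y‖ ≤ M * (∑ j, ‖y j‖) ^ 2 := fun y => by
    rcases (sum_nonneg fun j (_ : j ∈ univ) => norm_nonneg (y j)).eq_or_lt with h | h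
    · have : ∀ j, y j = 0 := fun j => norm_eq_zero.mp
        ((sum_eq_zero_iff_of_nonneg fun j _ => norm_nonneg (y j)).mp h.symm j (mem_univ j))
      simp [bf, this]
    have := hm (a := fun j => ((∑ j, ‖y j‖ : ℝ) : ℂ)⁻¹ * y j) (by
      simp only [Set.mem_ofPred_eq, norm_mul, norm_inv, Complex.norm_real, Real.norm_of_nonneg h.le,
        ← mul_sum, inv_mul_cancel₀ h.ne', le_refl])
    simp only [Set.mem_ofPred_eq, bf_smul, hMe, norm_mul, norm_pow, norm_inv, Complex.norm_real,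
      Real.norm_of_nonneg h.le, inv_pow] at this
    rwa [inv_mul_le_iff₀ (by positivity), mul_comm] at this
  refine (hM y).trans (mul_le_mul_of_nonneg_right ?_ (sq_nonneg _))
  by_contra hc
  have hc := not_le.mp hc
  have s6 : √6 * √6 = 6 := Real.mul_self_sqrt (by norm_num)
  have s0 : 0 ≤ √6 := Real.sqrt_nonneg _
  have s2 : 2 < √6 := by nlinarith
  have M1 : 0 < M := lt_of_le_of_lt (by positivity) hc
  have x1 : ∑ j, ‖x j‖ = 1 := by
    have h1 := hM x
    have h2 : 0 ≤ ∑ j, ‖x j‖ := sum_nonneg fun j _ => norm_nonneg _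
    have h3 : ∑ j, ‖x j‖ ≤ 1 := hx
    rw [hMe, le_mul_iff_one_le_right M1] at h1
    nlinarith
  have h1 := mid H x x1
  have h2 := (kkt hM x x1 hMe).trans (first H x x1)
  have μ1 : ‖∑ j, x j‖ ≤ 1 := x1 ▸ norm_sum_le _ _
  rw [hMe] at h1
  set μ := ‖∑ j, x j‖
  have v0 : 0 < v := by
    rcases hv.eq_or_lt with rfl | h
    · linarith
    · exact h
  have a1 : √6 - 2 < μ := by nlinarith
  have a2 : 2 * √6 * μ < 2 + μ ^ 2 := by
    refine lt_of_mul_lt_mul_left ?_ hv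
    nlinarith
  nlinarith

end Pool.Agent.Lib.PN93
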