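import Pool.Agent.Lib.PN93.Basic
import Pool.Agent.Lib.PN93.CxFin

/-! The complex space `L¹`: the index of order two. -/

namespace Pool.Agent.Lib.PN93.Cx
open Finset MeasureTheory Filter Topology

variable {Ω : Type} [MeasurableSpace Ω] {μ : Measure Ω}

def Bd (w : Ω → ℂ) : Prop := Measurable w ∧ ∀ x, ‖w x‖ ≤ 1

lemma Bd.mul {w w' : Ω → ℂ} (h : Bd w) (h' : Bd w') : Bd fun x => w x * w' x :=
  ⟨h.1.mul h'.1, fun x => by rw [norm_mul]; exact mul_le_one₀ (h.2 x) (norm_nonneg _) (h'.2 x)⟩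

open scoped Classical in
lemma Bd.ind {S : Set Ω} (hS : MeasurableSet S) : Bd fun x => if x ∈ S then 1 else 0 :=
  ⟨Measurable.ite hS measurable_const measurable_const, fun x => by
    dsimp only; split_ifs <;> simp⟩

lemma Bd.int {w F : Ω → ℂ} (h : Bd w) (hF : Integrable F μ) : Integrable (fun x => w x * F x) μ :=
  hF.bdd_mul h.1.aestronglyMeasurable (Eventually.of_forall h.2)

noncomputable def mulL (μ : Measure Ω) {w : Ω → ℂ} (h : Bd w) : Lp ℂ 1 μ →L[ℂ] Lp ℂ 1 μ :=
  (ContinuousLinearMap.mul ℂ ℂ).holderL μ ⊤ 1 1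
    ((memLp_top_of_bound h.1.aestronglyMeasurable 1 (Eventually.of_forall h.2)).toLp w)

lemma coe_mulL {w : Ω → ℂ} (h : Bd w) (u : Lp ℂ 1 μ) : mulL μ h u =ᵐ[μ] fun x => w x * u x := by
  filter_upwards [(ContinuousLinearMap.mul ℂ ℂ).coeFn_holder (r := 1)
    ((memLp_top_of_bound h.1.aestronglyMeasurable 1 (Eventually.of_forall h.2)).toLp w) u,
    (memLp_top_of_bound (μ := μ) h.1.aestronglyMeasurable 1
      (Eventually.of_forall h.2)).coeFn_toLp] with x h1 h2
  rw [← h2]; exact h1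

noncomputable def intL (μ : Measure Ω) {w : Ω → ℂ} (h : Bd w) : Lp ℂ 1 μ →L[ℂ] ℂ :=
  (L1.integralCLM' ℂ).comp (mulL μ h)

lemma intL_eq {w : Ω → ℂ} (h : Bd w) (u : Lp ℂ 1 μ) : intL μ h u = ∫ x, w x * u x ∂μ := by
  rw [intL, ContinuousLinearMap.comp_apply, ← L1.integral_eq', L1.integral_eq_integral]
  exact integral_congr_ae (coe_mulL h u)

lemma norm_mulL {w : Ω → ℂ} (h : Bd w) (u : Lp ℂ 1 μ) :
    ‖mulL μ h u‖ = ∫ x, ‖w x * u x‖ ∂μ := by
  rw [L1.norm_eq_integral_norm]
  refine integral_congr_ae ?_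
  filter_upwards [coe_mulL h u] with x hx
  rw [hx]

lemma intL_mulL {w w' : Ω → ℂ} (h : Bd w) (h' : Bd w') (u : Lp ℂ 1 μ) :
    intL μ h (mulL μ h' u) = ∫ x, w x * (w' x * u x) ∂μ := by
  rw [intL_eq]
  refine integral_congr_ae ?_
  filter_upwards [coe_mulL h' u] with x hx
  rw [hx]

lemma norm_intL {w : Ω → ℂ} (h : Bd w) (u : Lp ℂ 1 μ) : ‖intL μ h u‖ ≤ ‖mulL μ h u‖ := by
  rw [intL_eq, norm_mulL]; exact norm_integral_le_integral_norm _

lemma mulL_le {w : Ω → ℂ} (h : Bd w) (u : Lp ℂ 1 μ) : ‖mulL μ h u‖ ≤ ‖u‖ := by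
  rw [norm_mulL, L1.norm_eq_integral_norm]
  refine integral_mono (h.int (L1.integrable_coeFn u)).norm (L1.integrable_coeFn u).norm fun x => ?_
  dsimp only; rw [norm_mul]; exact mul_le_of_le_one_left (norm_nonneg _) (h.2 x)

/-- a unimodular function rotating `F` to the positive axis -/
lemma exists_phase {F : Ω → ℂ} (hF : Measurable F) :
    ∃ g : Ω → ℂ, Bd g ∧ (∀ x, ‖g x‖ = 1) ∧ ∀ x, g x * F x = ‖F x‖ := by
  classical
  have h : ∀ x, ‖if F x = 0 then 1 else (‖F x‖ : ℂ) / F x‖ = 1 := fun x => by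
    split_ifs with h <;> simp [h]
  refine ⟨fun x => if F x = 0 then 1 else (‖F x‖ : ℂ) / F x,
    ⟨Measurable.ite (hF (measurableSet_singleton 0)) measurable_const
    ((Complex.measurable_ofReal.comp hF.norm).div hF), fun x => (h x).le⟩, h, fun x => ?_⟩
  dsimp only
  split_ifs with h <;> simp [h]

section Face
variable {X : Type} [NormedAddCommGroup X] [NormedSpace ℂ X]

lemma face (A : ML ℂ X 2) {φ : X →L[ℂ] ℂ} (hφ : ‖φ‖ ≤ 1) {I : Type} [Fintype I] (z : I → X)
    (hz : ∀ j, φ (z j) = ‖z j‖) (c : I → ℂ) :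
    ‖φ (A fun _ => ∑ j, c j • z j)‖ ≤ √6 * nRad A * (∑ j, ‖c j‖ * ‖z j‖) ^ 2 := by
  classical
  have hv := nRad_nonneg A
  set e : I → X := fun j => (‖z j‖ : ℂ)⁻¹ • z j with he
  have e1 : ∀ j, ‖e j‖ ≤ 1 := fun j => by
    simp only [he, norm_smul, norm_inv, Complex.norm_real, norm_norm]; exact inv_mul_le_one_of_le₀ le_rfl (norm_nonneg _)
  have e2 : ∀ j, φ (e j) = ‖e j‖ := fun j => by simp [he, hz, norm_smul]
  have e3 : ∀ j, z j = (‖z j‖ : ℂ) • e j := fun j => by
    by_cases h : z j = 0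
    · simp [h]
    · simp [he, smul_smul, h]
  have e4 : ∀ x : I → ℂ, φ (A fun _ => ∑ j, x j • e j) = bf (fun j k => φ (A ![e j, e k])) x x :=
    fun x => by
    rw [A.map_sum fun _ j => x j • e j, map_sum, ← (finTwoArrowEquiv I).symm.sum_comp,
      Fintype.sum_prod_type, bf]
    refine sum_congr rfl fun j _ => sum_congr rfl fun k _ => ?_
    rw [A.map_smul_univ (fun i => x _) fun i => e _, map_smul, smul_eq_mul]
    congr 3
    · simp
    · ext i; fin_cases i <;> rfl
  have := sqrt_six hv (B := fun j k => φ (A ![e j, e k])) (fun t ht => ?_) fun j => c j * ‖z j‖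
  · rw [← e4] at this
    simp only [mul_smul, ← e3, norm_mul, Complex.norm_real, norm_norm] at this
    exact this
  rw [← e4]
  have a1 : ‖∑ j, (t j : ℂ) • e j‖ ≤ ∑ j, t j * ‖e j‖ := norm_sum_le_of_le _ fun j _ => by
    rw [norm_smul, Complex.norm_real, Real.norm_of_nonneg (ht j)]
  have a2 : φ (∑ j, (t j : ℂ) • e j) = (∑ j, t j * ‖e j‖ : ℝ) := by simp [e2]
  have a3 := φ.le_of_opNorm_le hφ (∑ j, (t j : ℂ) • e j)
  rw [a2, one_mul, Complex.norm_real] at a3
  have a4 := le_antisymm a1 ((le_abs_self _).trans a3)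
  refine (le_nRad (by norm_num) A hφ (by rw [a2, a4]; rfl)).trans ?_
  rw [a4]
  gcongr with j
  · exact sum_nonneg fun j _ => mul_nonneg (ht j) (norm_nonneg _)
  · exact mul_le_of_le_one_right (ht j) (e1 j)
end Face

theorem lower (A : ML ℂ (Lp ℂ 1 μ) 2) (f : Lp ℂ 1 μ) (hf : ‖f‖ = 1) :
    ‖A fun _ => f‖ ≤ √6 * nRad A := by
  classical
  have hv := nRad_nonneg A
  have mf := (Lp.stronglyMeasurable f).measurable
  have fi := L1.integrable_coeFn f
  obtain ⟨g, hg, g1, g2⟩ := exists_phase (Lp.stronglyMeasurable (A fun _ => f)).measurable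
  obtain ⟨h, hh, h1, h2⟩ := exists_phase (hg.1.mul mf)
  have hw : StronglyMeasurable fun x => (h x)⁻¹ := hh.1.inv.stronglyMeasurable
  have p1 : ‖intL μ hg‖ ≤ 1 := (intL μ hg).opNorm_le_bound zero_le_one fun u => by
    rw [one_mul]; exact (norm_intL hg u).trans (mulL_le hg u)
  have hs : ∀ n, Bd fun x => hw.approxBounded 1 n x * h x := fun n =>
    Bd.mul ⟨(hw.approxBounded 1 n).measurable, hw.norm_approxBounded_le zero_le_one n⟩ hh
  have lim : Tendsto (fun n => mulL μ (hs n) f) atTop (𝓝 f) := by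
    rw [tendsto_iff_norm_sub_tendsto_zero]
    have := tendsto_integral_of_dominated_convergence (μ := μ)
      (F := fun n x => ‖hw.approxBounded 1 n x * h x * f x - f x‖) (f := fun _ => 0)
      (fun x => ‖f x‖ + ‖f x‖) (fun n => (((hs n).int fi).sub fi).norm.1) (fi.norm.add fi.norm)
      (fun n => Eventually.of_forall fun x => by
        rw [norm_norm]
        refine norm_sub_le_of_le ?_ le_rfl
        rw [norm_mul]; exact mul_le_of_le_one_left (norm_nonneg _) ((hs n).2 x))
      (Eventually.of_forall fun x => by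
        have h0 : h x ≠ 0 := fun e => by simpa [e] using h1 x
        have := ((((hw.tendsto_approxBounded_of_norm_le (c := 1) (x := x) (by simp [h1])).mul_const
          (h x)).mul_const (f x)).sub_const (f x)).norm
        simpa [h0] using this)
    rw [integral_zero] at this
    refine this.congr fun n => ?_
    rw [L1.norm_eq_integral_norm]
    refine integral_congr_ae ?_
    filter_upwards [Lp.coeFn_sub (mulL μ (hs n) f) f, coe_mulL (hs n) f] with x a b
    rw [a, Pi.sub_apply, b]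
  have e : intL μ hg (A fun _ => f) = ‖A fun _ => f‖ := by
    rw [intL_eq, L1.norm_eq_integral_norm, ← integral_complex_ofReal]; simp only [g2]
  have hc : Continuous fun y : Lp ℂ 1 μ => ‖intL μ hg (A fun _ => y)‖ :=
    ((intL μ hg).continuous.comp (A.cont.comp (by fun_prop))).norm
  have := (hc.tendsto f).comp lim
  rw [e, Complex.norm_real, norm_norm] at this
  refine le_of_tendsto' this fun n => ?_
  set s := hw.approxBounded 1 n
  have s1 : ∀ x, ‖s x‖ ≤ 1 := hw.norm_approxBounded_le zero_le_one n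
  have hz : ∀ c : s.range, Bd fun x => (if x ∈ s ⁻¹' {c.1} then 1 else 0) * h x := fun c =>
    (Bd.ind (s.measurableSet_fiber _)).mul hh
  have sum1 : ∀ (x : Ω) (F : ℂ → ℂ),
      ∑ c : s.range, F c * (if x ∈ s ⁻¹' {c.1} then 1 else 0) = F (s x) := fun x F => by
    rw [sum_eq_single ⟨s x, s.mem_range_self x⟩ (fun c _ hc => by
      rw [if_neg (show x ∉ s ⁻¹' {c.1} from fun h => hc (Subtype.ext (Eq.symm h))), mul_zero])
      (by simp)]
    simp
  have nz : ∀ (c : s.range) x, (‖(if x ∈ s ⁻¹' {c.1} then 1 else 0) * h x * f x‖ : ℂ) =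
      g x * ((if x ∈ s ⁻¹' {c.1} then 1 else 0) * h x * f x) := fun c x => by
    have := h2 x
    split_ifs
    · simp only [Pi.mul_apply, norm_mul, g1, h1, one_mul] at this ⊢
      linear_combination -this
    · simp
  have a1 := face A p1 (fun c => mulL μ (hz c) f) (fun c => by
    rw [intL_mulL, norm_mulL, ← integral_complex_ofReal]; simp only [nz]) fun c => c.1
  have a2 : ∑ c : s.range, c.1 • mulL μ (hz c) f = mulL μ (hs n) f := by
    refine Lp.ext ?_
    filter_upwards [Lp.coeFn_fun_finsetSum univ fun c : s.range => c.1 • mulL μ (hz c) f,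
      ae_all_iff.mpr fun c : s.range => Lp.coeFn_smul c.1 (mulL μ (hz c) f),
      ae_all_iff.mpr fun c => coe_mulL (hz c) f, coe_mulL (hs n) f] with x b1 b2 b3 b4
    simp only [b1, b2, b3, b4, Pi.smul_apply, smul_eq_mul, ← mul_assoc, ← sum_mul]
    rw [sum1 x fun c => c]
  have a3 : ∑ c : s.range, ‖c.1‖ * ‖mulL μ (hz c) f‖ ≤ 1 := by
    have b1 : ∀ c : s.range, ‖c.1‖ ≤ 1 := fun c => by
      obtain ⟨x, hx⟩ := SimpleFunc.mem_range.mp c.2
      exact hx ▸ s1 x
    refine (sum_le_sum fun c _ => mul_le_of_le_one_left (norm_nonneg _) (b1 c)).trans_eq ?_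
    simp only [norm_mulL]
    rw [← integral_finsetSum _ fun c _ => ((hz c).int fi).norm, ← hf, L1.norm_eq_integral_norm]
    refine integral_congr_ae (Eventually.of_forall fun x => ?_)
    apply Complex.ofReal_injective
    have := h2 x
    simp only [Pi.mul_apply, norm_mul, g1, one_mul] at this
    simp only [Complex.ofReal_sum, nz, ← mul_assoc, ← sum_mul]
    rw [sum1 x fun _ => g x]
    linear_combination this
  rw [a2] at a1
  exact a1.trans (mul_le_of_le_one_right (mul_nonneg (Real.sqrt_nonneg _) hv) (pow_le_one₀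
    (sum_nonneg fun c _ => mul_nonneg (norm_nonneg _) (norm_nonneg _)) a3))

open scoped Classical in
theorem upper {S T : Set Ω} (hS : MeasurableSet S) (hT : MeasurableSet T) (hd : Disjoint S T)
    (S0 : μ S ≠ 0) (S1 : μ S ≠ ⊤) (T0 : μ T ≠ 0) (T1 : μ T ≠ ⊤) :
    ∃ B : ML ℂ (Lp ℂ 1 μ) 2, pNorm B = 1 ∧ nRad B ≤ 1 / 2 := by
  have bA := Bd.ind hS
  have bB := Bd.ind hS.compl
  have e1 : ∀ y : Lp ℂ 1 μ, mulL μ bA y + mulL μ bB y = y := fun y => by
    refine Lp.ext ?_
    filter_upwards [Lp.coeFn_add (mulL μ bA y) (mulL μ bB y), coe_mulL bA y, coe_mulL bB y]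
      with x h1 h2 h3
    rw [h1, Pi.add_apply, h2, h3]; by_cases hx : x ∈ S <;> simp [hx]
  have e2 : ∀ y : Lp ℂ 1 μ, ‖mulL μ bA y‖ + ‖mulL μ bB y‖ = ‖y‖ := fun y => by
    have hy := L1.integrable_coeFn y
    rw [norm_mulL, norm_mulL, L1.norm_eq_integral_norm,
      ← integral_add (bA.int hy).norm (bB.int hy).norm]
    exact integral_congr_ae (Eventually.of_forall fun x => by by_cases hx : x ∈ S <;> simp [hx])
  obtain ⟨A, hA⟩ := ((HP.lin (mulL μ bA)).mul (intL μ bA + (3 : ℂ) • intL μ bB)).add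
    ((HP.lin (mulL μ bB)).mul (-((3 : ℂ) • intL μ bA + intL μ bB)))
  have i1 : ∀ {R U : Set Ω} (hR : MeasurableSet R) (hU : MeasurableSet U) (h : μ U ≠ ⊤) (c : ℂ),
      intL μ (Bd.ind hR) (indicatorConstLp 1 hU h c) = μ.real (R ∩ U) • c := by
    intro R U hR hU h c
    rw [intL_eq, integral_congr_ae (g := (R ∩ U).indicator fun _ => c) (by
      filter_upwards [indicatorConstLp_coeFn (p := 1) (hs := hU) (hμs := h) (c := c)] with x hx
      by_cases h1 : x ∈ R <;> by_cases h2 : x ∈ U <;> simp [hx, h1, h2]),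
      integral_indicator_const _ (hR.inter hU)]
  have S2 : 0 < μ.real S := ENNReal.toReal_pos S0 S1
  have T2 : 0 < μ.real T := ENNReal.toReal_pos T0 T1
  set y : Lp ℂ 1 μ := indicatorConstLp 1 hS S1 ((2 * μ.real S : ℝ) : ℂ)⁻¹ +
    indicatorConstLp 1 hT T1 ((2 * μ.real T : ℝ) : ℂ)⁻¹ with hy
  have a : intL μ bA y = 1 / 2 := by
    rw [hy, map_add, i1 hS, i1 hS, hd.inter_eq, Set.inter_self]
    have : (μ.real S : ℂ) ≠ 0 := by exact_mod_cast S2.ne'
    simp; field_simp
  have b : intL μ bB y = 1 / 2 := by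
    rw [hy, map_add, i1 hS.compl, i1 hS.compl, Set.compl_inter_self,
      Set.inter_eq_right.mpr hd.symm.subset_compl_right]
    have : (μ.real T : ℂ) ≠ 0 := by exact_mod_cast T2.ne'
    simp; field_simp
  have n : ‖y‖ = 1 := by
    refine le_antisymm ((norm_add_le _ _).trans_eq ?_) ?_
    · rw [norm_indicatorConstLp (by simp) (by simp), norm_indicatorConstLp (by simp) (by simp)]
      simp [abs_of_pos S2, abs_of_pos T2]
      field_simp
      norm_num
    · have h1 := norm_intL bA y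
      have h2 := norm_intL bB y
      have h3 : ‖(1 / 2 : ℂ)‖ = 1 / 2 := by norm_num
      rw [a, h3] at h1; rw [b, h3] at h2
      linarith [e2 y]
  clear_value y
  have aa : intL μ bA (mulL μ bA y) = 1 / 2 := by
    rw [← a, intL_mulL, intL_eq]; congr 1; ext x; by_cases hx : x ∈ S <;> simp [hx]
  have bb : intL μ bB (mulL μ bB y) = 1 / 2 := by
    rw [← b, intL_mulL, intL_eq]; congr 1; ext x; by_cases hx : x ∈ S <;> simp [hx]
  have ab : intL μ bA (mulL μ bB y) = 0 := by
    rw [intL_mulL, ← integral_zero Ω ℂ (μ := μ)]; congr 1; ext x; by_cases hx : x ∈ S <;> simp [hx]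
  have ba : intL μ bB (mulL μ bA y) = 0 := by
    rw [intL_mulL, ← integral_zero Ω ℂ (μ := μ)]; congr 1; ext x; by_cases hx : x ∈ S <;> simp [hx]
  refine ex_norm two_pos A n ?_ fun z φ hz hφ e => ?_
  · have h1 := norm_intL bA (A fun _ => y)
    have h2 := norm_intL bB (A fun _ => y)
    rw [← e2]
    have h3 : ‖intL μ bA (A fun _ => y)‖ = 1 := by
      simp only [hA, map_add, map_smul, add_apply,
        smul_apply, neg_apply, a, b, aa, ab]
      norm_num
    have h4 : ‖intL μ bB (A fun _ => y)‖ = 1 := by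
      simp only [hA, map_add, map_smul, add_apply,
        smul_apply, neg_apply, a, b, bb, ba]
      norm_num
    linarith
  · have h1 := φ.le_of_opNorm_le hφ.le (mulL μ bA z)
    have h2 := φ.le_of_opNorm_le hφ.le (mulL μ bB z)
    have h3 := (e2 z).trans hz
    have h4 := congrArg (fun w => (φ w).re) (e1 z)
    simp only [map_add, e, Complex.add_re, Complex.one_re] at h4
    have h5 := Complex.re_le_norm (φ (mulL μ bA z))
    have h6 := Complex.re_le_norm (φ (mulL μ bB z))
    have key : ∀ (w : ℂ) (r : ℝ), ‖w‖ ≤ r → r ≤ w.re → w = r := fun w r a b => by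
      have c := Complex.re_le_norm w
      have d := Complex.sq_norm_sub_sq_re w
      rw [show ‖w‖ = w.re by linarith, sub_self] at d
      exact Complex.ext (by rw [Complex.ofReal_re]; linarith)
        (by rw [Complex.ofReal_im]; exact pow_eq_zero_iff two_ne_zero |>.mp d.symm)
    rw [one_mul] at h1 h2
    have h7 := key (φ (mulL μ bA z)) ‖mulL μ bA z‖ h1 (by linarith)
    have h8 := key (φ (mulL μ bB z)) ‖mulL μ bB z‖ h2 (by linarith)
    have c1 := norm_intL bA z
    have c2 := norm_intL bB z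
    have c3 := norm_nonneg (mulL μ bA z)
    have c4 := norm_nonneg (mulL μ bB z)
    rw [hA, map_add, map_smul, map_smul, h7, h8]
    generalize ‖mulL μ bA z‖ = α at *
    generalize ‖mulL μ bB z‖ = β at *
    have e3 : (intL μ bA + (3 : ℂ) • intL μ bB) z • (α : ℂ) +
        (-((3 : ℂ) • intL μ bA + intL μ bB)) z • (β : ℂ) =
        (α - 3 * β : ℝ) * intL μ bA z + (3 * α - β : ℝ) * intL μ bB z := by simp; ring
    rw [e3]
    refine (norm_add_le _ _).trans ?_
    rw [norm_mul, norm_mul, Complex.norm_real, Complex.norm_real, Real.norm_eq_abs,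
      Real.norm_eq_abs]
    have d1 := mul_le_mul_of_nonneg_left c1 (abs_nonneg (α - 3 * β))
    have d2 := mul_le_mul_of_nonneg_left c2 (abs_nonneg (3 * α - β))
    obtain rfl : β = 1 - α := by linarith
    cases abs_cases (α - 3 * (1 - α)) <;> cases abs_cases (3 * α - (1 - α)) <;>
      nlinarith [sq_nonneg (2 * α - 1)]

end Pool.Agent.Lib.PN93.Cx
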