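import Mathlib

/-! Polynomial numerical index of order `k` of a normed space over `ℝ` or `ℂ`. -/

namespace Pool.Agent.Lib.PN93

variable {𝕜 X : Type} [RCLike 𝕜] [NormedAddCommGroup X] [NormedSpace 𝕜 X] {k : ℕ}

/-- norm of the `k`-homogeneous polynomial `P x = A (x, …, x)`: the supremum of `‖P x‖`
over the unit sphere -/
noncomputable def pNorm (A : ContinuousMultilinearMap 𝕜 (fun _ : Fin k => X) X) : ℝ :=
  sSup {r | ∃ x : X, ‖x‖ = 1 ∧ r = ‖A fun _ => x‖}

/-- numerical radius of `P x = A (x, …, x)`: the supremum of `|φ (P x)|` over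
`‖x‖ = ‖φ‖ = φ x = 1` -/
noncomputable def nRad (A : ContinuousMultilinearMap 𝕜 (fun _ : Fin k => X) X) : ℝ :=
  sSup {r | ∃ (x : X) (φ : X →L[𝕜] 𝕜), ‖x‖ = 1 ∧ ‖φ‖ = 1 ∧ φ x = 1 ∧ r = ‖φ (A fun _ => x)‖}

/-- the polynomial numerical index of order `k`: the infimum of the numerical radii of the
`k`-homogeneous polynomials of norm one -/
noncomputable def nIdx (𝕜 X : Type) [RCLike 𝕜] [NormedAddCommGroup X] [NormedSpace 𝕜 X]
    (k : ℕ) : ℝ :=
  sInf {r | ∃ A : ContinuousMultilinearMap 𝕜 (fun _ : Fin k => X) X, pNorm A = 1 ∧ r = nRad A}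

end Pool.Agent.Lib.PN93
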