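import Pool.Agent.Lib.PN93.Test

/-! Order four: a certificate of cost below eight. -/

namespace Pool.Agent.Lib.PN93
open Finset

variable {X : Type} [NormedAddCommGroup X] [NormedSpace ℝ X] {s : ℝ}

theorem four_lower (A : ML ℝ X 4) {x : X} (hx : Split x (A fun _ => x) s) (h0 : 0 ≤ s)
    (h1 : s ≤ 1) : ‖A fun _ => x‖ ≤ 7.99994 * nRad A := by
  obtain ⟨d, rfl⟩ : ∃ d, s = (1 + d) / 2 := ⟨2 * s - 1, by ring⟩
  have d1 : d ^ 2 ≤ 1 := by nlinarith
  have d4 : d ^ 4 = d ^ 2 * d ^ 2 := by ring
  rcases le_total (d ^ 2) (9 / 10 ^ 6) with hd | hd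
  · have := cert (by norm_num) A hx (J := Fin 7)
      ![-406653/46653772765, -406653/46653772765, 21853/2218911125835, -21853/2218911125835,
        -1681/1897216443, -1681/1897216443, 349203925187/177284336507]
      ![517065113645652671/518644631303662500, 517065113645652671/518644631303662500,
        5575509913127391/5630605558857500, -5575509913127391/5630605558857500,
        159445855558929/166268094125000, 159445855558929/166268094125000, 491/500]
      (fun T b => if b then ![35, 6, 200, 1, 45, 7, 1] T else ![-6, -35, 1, 200, -7, -45, -1] T)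
      (fun T b => if b then ![35, 6, 200, 1, 45, 9, 1] T else ![6, 35, 1, 200, 9, 45, 1] T)
      (fun T b => by fin_cases T <;> cases b <;> norm_num)
      (fun T => by fin_cases T <;> norm_num [abs_lt])
      (fun b a a' h => by
        obtain rfl : a' = 3 - a := by omega
        have : a ≤ 3 := by omega
        interval_cases a <;> cases b <;> norm_num [Fin.sum_univ_succ, sg])
      (fun a a' h => by
        obtain rfl : a' = 4 - a := by omega
        have : a ≤ 4 := by omega
        interval_cases a <;> norm_num [Fin.sum_univ_succ])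
    refine this.trans (mul_le_mul_of_nonneg_right ?_ (nRad_nonneg A))
    have : d ^ 4 ≤ 1 / 10 ^ 10 := by nlinarith [sq_nonneg d]
    norm_num [Fin.sum_univ_succ, abs_div]
    nlinarith
  · refine (split_cheb (by norm_num) A hx).trans (mul_le_mul_of_nonneg_right ?_ (nRad_nonneg A))
    simp only [Hh]
    nlinarith

end Pool.Agent.Lib.PN93
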