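import Mathlib

/-! Project pn93: real inequalities for the extremal polynomials on a two-block model. -/

namespace Pool.Agent.Lib.PN93.I49

/-- Products of distances to the end points of an interval. -/
theorem bn {t a b : ℝ} (ha : a ≤ t) (hb : t ≤ b) (i j : ℕ) : 0 ≤ (t - a) ^ i * (b - t) ^ j :=
  mul_nonneg (pow_nonneg (sub_nonneg.2 ha) i) (pow_nonneg (sub_nonneg.2 hb) j)

/-- The bound along a ray. -/
def Ok (M : ℝ) (n : ℕ) (w al : ℝ) : Prop := ∀ r : ℝ, 0 ≤ r → r ≤ 1 → M * (r ^ n * (w - r * al)) ≤ 1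

/-- The admissible constants. -/
def Adm (M : ℝ) (n : ℕ) : Prop := 0 < n ∧ 0 ≤ M ∧ M * (n : ℝ) ^ n ≤ ((n : ℝ) + 1) ^ (n + 1)

theorem amgm {M x w : ℝ} {n : ℕ} (h : Adm M n) (hx : 0 ≤ x) (hw : 0 ≤ w) :
    M * (x ^ n * (w - x)) ≤ w ^ (n + 1) := by
  obtain ⟨hn, h0, hM⟩ := h
  have n0 : (0 : ℝ) < n := by exact_mod_cast hn
  rcases hx.eq_or_lt with rfl | hx
  · rw [zero_pow hn.ne']
    simpa using pow_nonneg hw _
  rcases le_total w x with c | c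
  · exact (mul_nonpos_of_nonneg_of_nonpos h0
      (mul_nonpos_of_nonneg_of_nonpos (by positivity) (by linarith))).trans (by positivity)
  have y0 : 0 ≤ n * w / ((n + 1) * x) := by positivity
  have b := one_add_mul_le_pow (a := n * w / ((n + 1) * x) - 1) (by linarith) (n + 1)
  rw [add_sub_cancel, div_pow, le_div_iff₀ (by positivity)] at b
  have e : (1 + ((n + 1 : ℕ) : ℝ) * (n * w / ((n + 1) * x) - 1)) * ((n + 1) * x) ^ (n + 1) =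
      n * (((n : ℝ) + 1) ^ (n + 1) * (x ^ n * (w - x))) := by
    push_cast
    rw [mul_pow]
    field_simp
    ring
  rw [e, mul_pow, pow_succ (n : ℝ), mul_comm _ (n : ℝ), mul_assoc] at b
  have b' := le_of_mul_le_mul_left b n0
  have p : 0 ≤ x ^ n * (w - x) := mul_nonneg (by positivity) (by linarith)
  have q := mul_le_mul_of_nonneg_right hM p
  refine le_of_mul_le_mul_left ?_ (pow_pos n0 n)
  linarith

theorem Ok.mono {M w al w' al' : ℝ} {n : ℕ} (h : Adm M n) (o : Ok M n w' al') (h1 : w ≤ w')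
    (h2 : w - al ≤ w' - al') : Ok M n w al := fun r r0 r1 =>
  le_trans (mul_le_mul_of_nonneg_left (mul_le_mul_of_nonneg_left (by nlinarith) (pow_nonneg r0 n))
    h.2.1) (o r r0 r1)

/-- The exact test. -/
theorem okx {M w al : ℝ} {n : ℕ} (h : Adm M n) (h0 : 0 < al) (h1 : w ^ n * w ≤ al ^ n) :
    Ok M n w al := by
  intro r r0 _
  rw [← pow_succ] at h1
  rcases le_total w 0 with c | c
  · exact (mul_nonpos_of_nonneg_of_nonpos h.2.1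
      (mul_nonpos_of_nonneg_of_nonpos (by positivity) (by nlinarith))).trans zero_le_one
  have a := amgm h (mul_nonneg r0 h0.le) c
  refine le_of_mul_le_mul_left ?_ (pow_pos h0 n)
  rw [mul_pow] at a
  linarith

/-- The test with a fixed scale. -/
theorem okz {M w al : ℝ} {n : ℕ} (h : Adm M n) (z : ℝ) (h0 : 0 < z) (h1 : w ≤ z ^ n)
    (h2 : w - al ≤ z ^ n - z ^ n * z) : Ok M n w al :=
  (okx h (mul_pos (pow_pos h0 n) h0) (by rw [mul_pow])).mono h h1 h2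

/-- The test with the logarithm. -/
theorem okl {M w al a b : ℝ} {n : ℕ} (h : Adm M n) (h0 : 0 < a) (h1 : b ≤ -(a * Real.log a))
    (h2 : al ≤ a) (h3 : (n + 1) * (w - al) ≤ b) : Ok M n w al := by
  have k0 : (0 : ℝ) < n + 1 := by positivity
  have h4 : w - al ≤ b / (n + 1) := by
    rw [le_div_iff₀ k0]
    linarith
  rcases le_total (a + b / (n + 1)) 0 with c | c
  · exact (okx h h0 (w := 0) (by simpa using pow_nonneg h0.le n)).mono h (by linarith) (by linarith)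
  refine (okx h h0 (w := a + b / (n + 1)) ?_).mono h (by linarith) (by linarith)
  have e : a + b / (n + 1) = a * (b / a / (n + 1) + 1) := by field_simp; ring
  have f : a + b / (n + 1) ≤ a * Real.exp (-Real.log a / (n + 1)) := by
    rw [e]
    refine mul_le_mul_of_nonneg_left ((Real.add_one_le_exp _).trans (Real.exp_le_exp.2 ?_)) h0.le
    gcongr
    rw [div_le_iff₀ h0]
    linarith
  rw [← pow_succ]
  refine (pow_le_pow_left₀ c f _).trans (le_of_eq ?_)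
  rw [mul_pow, ← Real.exp_nat_mul]
  push_cast
  rw [mul_div_cancel₀ _ k0.ne', Real.exp_neg, Real.exp_log h0, pow_succ]
  field_simp

/-- Reduction to rays. -/
theorem red {M : ℝ} {n : ℕ} (U V : ℝ → ℝ → ℝ)
    (hU : ∀ r s d, U (r * s) (r * d) = r ^ n * U s d)
    (hV : ∀ r s d, V (r * s) (r * d) = r ^ n * V s d)
    (eU : ∀ s d, U s (-d) = U s d) (eV : ∀ s d, V s (-d) = -V s d)
    (h : ∀ t, -1 ≤ t → t ≤ 1 → Ok M n (U 1 t - V 1 t) ((1 + t) * U 1 t) ∧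
      Ok M n (-(U 1 t - V 1 t)) (-((1 + t) * U 1 t)) ∧ Ok M n (U t 1 - V t 1) ((1 + t) * U t 1) ∧
      Ok M n (-(U t 1 - V t 1)) (-((1 + t) * U t 1)))
    {al be a b : ℝ} (h1 : al + be = 1) (ha : |a| ≤ al) (hb : |b| ≤ be) :
    |(al - be) * (M * U (a + b) (a - b)) + M * V (a + b) (a - b)| ≤ 1 := by
  have q : ∀ s d : ℝ, d ≤ s → 0 ≤ s + d → ∃ t, -1 ≤ t ∧ t ≤ 1 ∧ d = s * t := by
    intro s d c1 c2
    rcases (by linarith : 0 ≤ s).eq_or_lt with rfl | c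
    · exact ⟨0, by norm_num, by norm_num, by linarith⟩
    · exact ⟨d / s, by rw [le_div_iff₀ c]; linarith, by rw [div_le_iff₀ c]; linarith,
        by field_simp⟩
  have T : ∀ s d, s ≤ 1 → d ≤ 1 → 0 ≤ s + d → |(s + d - 1) * (M * U s d) + M * V s d| ≤ 1 := by
    intro s d c1 c2 c3
    rcases le_total d s with c | c
    · obtain ⟨t, t1, t2, rfl⟩ := q s d c c3
      have s0 : 0 ≤ s := by linarith
      have u := hU s 1 t
      have v := hV s 1 t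
      rw [mul_one] at u v
      rw [u, v, abs_le]
      exact ⟨by linarith [(h t t1 t2).1 s s0 c1], by linarith [(h t t1 t2).2.1 s s0 c1]⟩
    · obtain ⟨t, t1, t2, rfl⟩ := q d s c (by linarith)
      have s0 : 0 ≤ d := by linarith
      have u := hU d t 1
      have v := hV d t 1
      rw [mul_one] at u v
      rw [u, v, abs_le]
      exact ⟨by linarith [(h t t1 t2).2.2.1 d s0 c2], by linarith [(h t t1 t2).2.2.2 d s0 c2]⟩
  have T2 : ∀ a b : ℝ, |a| + |b| ≤ 1 →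
      |(2 * |a| - 1) * (M * U (a + b) (a - b)) + M * V (a + b) (a - b)| ≤ 1 := by
    intro a b c
    have b1 := le_abs_self b
    have b2 := neg_abs_le b
    rcases le_total 0 a with a0 | a0
    · rw [abs_of_nonneg a0] at c ⊢
      have := T (a + b) (a - b) (by linarith) (by linarith) (by linarith)
      rwa [show a + b + (a - b) - 1 = 2 * a - 1 by ring] at this
    · rw [abs_of_nonpos a0] at c ⊢
      have := T (-1 * (a + b)) (-1 * (a - b)) (by linarith) (by linarith) (by linarith)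
      rw [hU, hV, show (-1 * (a + b) + -1 * (a - b) - 1) * (M * ((-1) ^ n * U (a + b) (a - b))) +
        M * ((-1) ^ n * V (a + b) (a - b)) = (-1) ^ n * ((2 * -a - 1) * (M * U (a + b) (a - b)) +
        M * V (a + b) (a - b)) by ring, abs_mul, abs_neg_one_pow, one_mul] at this
      exact this
  have A := abs_le.1 (T2 a b (by linarith))
  have B := abs_le.1 (T2 b a (by linarith))
  rw [add_comm b a, ← neg_sub a b, eU, eV] at B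
  rw [abs_le]
  rcases le_total 0 (M * U (a + b) (a - b)) with c | c
  · exact ⟨by nlinarith [A.1], by nlinarith [B.1]⟩
  · exact ⟨by nlinarith [B.2], by nlinarith [A.2]⟩

/-- The even part for degree 2. -/
noncomputable def U2 (s _d : ℝ) : ℝ := s / 2

/-- The odd part for degree 2. -/
noncomputable def V2 (_s d : ℝ) : ℝ := -d / 4

theorem A2 : Adm 4 1 := by norm_num [Adm]

theorem ip2 {t : ℝ} (h1 : -1 ≤ t) (h2 : t ≤ 1) :
    Ok 4 1 (U2 1 t - V2 1 t) ((1 + t) * U2 1 t) := by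
  unfold U2 V2
  rcases le_total t 0 with c1 | c1
  · refine okz A2 (1 / 2) (by norm_num) ?_ ?_
    · linarith [bn h1 c1 0 1]
    · linarith [bn h1 c1 1 0]
  refine okz A2 1 (by norm_num) ?_ ?_
  · linarith [bn c1 h2 0 1, bn c1 h2 1 0]
  · linarith [bn c1 h2 1 0]

theorem im2 {t : ℝ} (h1 : -1 ≤ t) (h2 : t ≤ 1) :
    Ok 4 1 (-(U2 1 t - V2 1 t)) (-((1 + t) * U2 1 t)) := by
  unfold U2 V2
  refine okz A2 (1 / 2) (by norm_num) ?_ ?_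
  · linarith [bn h1 h2 0 1, bn h1 h2 1 0]
  · linarith [bn h1 h2 0 1]

theorem op2 {t : ℝ} (h1 : -1 ≤ t) (h2 : t ≤ 1) :
    Ok 4 1 (U2 t 1 - V2 t 1) ((1 + t) * U2 t 1) := by
  unfold U2 V2
  rcases le_total t 0 with c1 | c1
  · refine okz A2 (1 / 2) (by norm_num) ?_ ?_
    · linarith [bn h1 c1 0 1, bn h1 c1 1 0]
    · linarith [bn h1 c1 0 2]
  rcases le_total t (1 / 2) with c2 | c2
  · refine okz A2 (1 / 2) (by norm_num) ?_ ?_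
    · linarith [bn c1 c2 0 1]
    · linarith [bn c1 c2 2 0]
  refine okz A2 (4 / 5) (by norm_num) ?_ ?_
  · linarith [bn c2 h2 0 1, bn c2 h2 1 0]
  · linarith [bn c2 h2 0 2, bn c2 h2 1 1, bn c2 h2 2 0]

theorem om2 {t : ℝ} (h1 : -1 ≤ t) (h2 : t ≤ 1) :
    Ok 4 1 (-(U2 t 1 - V2 t 1)) (-((1 + t) * U2 t 1)) := by
  unfold U2 V2
  refine okz A2 (1 / 2) (by norm_num) ?_ ?_
  · linarith [bn h1 h2 0 1, bn h1 h2 1 0]
  · linarith [bn h1 h2 1 1]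

theorem r2 {al be a b : ℝ} (h1 : al + be = 1) (ha : |a| ≤ al) (hb : |b| ≤ be) :
    |(al - be) * (4 * U2 (a + b) (a - b)) + 4 * V2 (a + b) (a - b)| ≤ 1 :=
  red U2 V2 (fun _ _ _ => by unfold U2; ring) (fun _ _ _ => by unfold V2; ring)
    (fun _ _ => by unfold U2; ring) (fun _ _ => by unfold V2; ring)
    (fun _ c d => ⟨ip2 c d, im2 c d, op2 c d, om2 c d⟩) h1 ha hb

/-- The even part for degree 3. -/
noncomputable def U3 (s _d : ℝ) : ℝ := 16 / 27 * s ^ 2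

/-- The odd part for degree 3. -/
noncomputable def V3 (s d : ℝ) : ℝ := -(4 / 9) * s * d

theorem A3 : Adm (27 / 4) 2 := by norm_num [Adm]

theorem ip3 {t : ℝ} (h1 : -1 ≤ t) (h2 : t ≤ 1) :
    Ok (27 / 4) 2 (U3 1 t - V3 1 t) ((1 + t) * U3 1 t) := by
  unfold U3 V3
  rcases le_total t (-7 / 20) with c1 | c1
  · refine okz A3 (2 / 3) (by norm_num) ?_ ?_
    · linarith [bn h1 c1 0 1, bn h1 c1 1 0]
    · linarith [bn h1 c1 1 0]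
  refine okx A3 ?_ ?_
  · linarith [bn c1 h2 0 1, bn c1 h2 1 0]
  · linarith [bn c1 h2 0 3, bn c1 h2 1 2, bn c1 h2 2 1, bn c1 h2 3 0]

theorem im3 {t : ℝ} (h1 : -1 ≤ t) (h2 : t ≤ 1) :
    Ok (27 / 4) 2 (-(U3 1 t - V3 1 t)) (-((1 + t) * U3 1 t)) := by
  unfold U3 V3
  refine okz A3 (2 / 3) (by norm_num) ?_ ?_
  · linarith [bn h1 h2 0 1, bn h1 h2 1 0]
  · linarith [bn h1 h2 0 1]

theorem op3 {t : ℝ} (h1 : -1 ≤ t) (h2 : t ≤ 1) :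
    Ok (27 / 4) 2 (U3 t 1 - V3 t 1) ((1 + t) * U3 t 1) := by
  unfold U3 V3
  rcases le_total t (1 / 2) with c1 | c1
  · refine okz A3 (2 / 3) (by norm_num) ?_ ?_
    · linarith [bn h1 c1 0 2, bn h1 c1 1 1, bn h1 c1 2 0]
    · linarith [bn h1 c1 1 2]
  rcases le_total t (11 / 20) with c2 | c2
  · refine okz A3 (2 / 3) (by norm_num) ?_ ?_
    · linarith [bn c1 c2 0 2, bn c1 c2 1 1, bn c1 c2 2 0]
    · linarith [bn c1 c2 2 1, bn c1 c2 3 0]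
  refine okx A3 ?_ ?_
  · linarith [bn c2 h2 0 3, bn c2 h2 1 2, bn c2 h2 2 1, bn c2 h2 3 0]
  · linarith [bn c2 h2 0 6, bn c2 h2 1 5, bn c2 h2 2 4, bn c2 h2 3 3, bn c2 h2 4 2, bn c2 h2 5 1,
      bn c2 h2 6 0]

theorem om3 {t : ℝ} (h1 : -1 ≤ t) (h2 : t ≤ 1) :
    Ok (27 / 4) 2 (-(U3 t 1 - V3 t 1)) (-((1 + t) * U3 t 1)) := by
  unfold U3 V3
  rcases le_total t (-1 / 2) with c1 | c1
  · refine okz A3 (2 / 3) (by norm_num) ?_ ?_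
    · linarith [bn h1 c1 0 2, bn h1 c1 1 1, bn h1 c1 2 0]
    · linarith [bn h1 c1 0 3, bn h1 c1 1 2]
  refine okz A3 (2 / 3) (by norm_num) ?_ ?_
  · linarith [bn c1 h2 0 2, bn c1 h2 1 1, bn c1 h2 2 0]
  · linarith [bn c1 h2 2 1]

theorem r3 {al be a b : ℝ} (h1 : al + be = 1) (ha : |a| ≤ al) (hb : |b| ≤ be) :
    |(al - be) * ((27 / 4) * U3 (a + b) (a - b)) + (27 / 4) * V3 (a + b) (a - b)| ≤ 1 :=
  red U3 V3 (fun _ _ _ => by unfold U3; ring) (fun _ _ _ => by unfold V3; ring)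
    (fun _ _ => by unfold U3; ring) (fun _ _ => by unfold V3; ring)
    (fun _ c d => ⟨ip3 c d, im3 c d, op3 c d, om3 c d⟩) h1 ha hb

/-- The even part for degree 4. -/
noncomputable def U4 (s d : ℝ) : ℝ := 27 / 256 * (7999 / 1000 * s ^ 3 + -(303 / 200) * s * d ^ 2)

/-- The odd part for degree 4. -/
noncomputable def V4 (s d : ℝ) : ℝ := 27 / 256 * (-(64843 / 10000) * s ^ 2 * d + d ^ 3)

theorem A4 : Adm (256 / 27) 3 := by norm_num [Adm]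

theorem ip4 {t : ℝ} (h1 : -1 ≤ t) (h2 : t ≤ 1) :
    Ok (256 / 27) 3 (U4 1 t - V4 1 t) ((1 + t) * U4 1 t) := by
  unfold U4 V4
  rcases le_total t (-9 / 10) with c1 | c1
  · refine okz A4 (3 / 4) (by norm_num) ?_ ?_
    · linarith [bn h1 c1 0 3, bn h1 c1 1 2, bn h1 c1 2 1, bn h1 c1 3 0]
    · linarith [bn h1 c1 0 11, bn h1 c1 1 10, bn h1 c1 2 9, bn h1 c1 3 8, bn h1 c1 4 7,
        bn h1 c1 5 6, bn h1 c1 6 5, bn h1 c1 7 4, bn h1 c1 8 3, bn h1 c1 9 2, bn h1 c1 10 1,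
        bn h1 c1 11 0]
  rcases le_total t (-11 / 20) with c2 | c2
  · refine okz A4 (19 / 25) (by norm_num) ?_ ?_
    · linarith [bn c1 c2 0 3, bn c1 c2 1 2, bn c1 c2 2 1, bn c1 c2 3 0]
    · linarith [bn c1 c2 0 3, bn c1 c2 1 2, bn c1 c2 2 1, bn c1 c2 3 0]
  refine okx A4 ?_ ?_
  · linarith [bn c2 h2 0 3, bn c2 h2 1 2, bn c2 h2 2 1, bn c2 h2 3 0]
  · linarith [bn c2 h2 0 12, bn c2 h2 1 11, bn c2 h2 2 10, bn c2 h2 3 9, bn c2 h2 4 8, bn c2 h2 5 7,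
      bn c2 h2 6 6, bn c2 h2 7 5, bn c2 h2 8 4, bn c2 h2 9 3, bn c2 h2 10 2, bn c2 h2 11 1,
      bn c2 h2 12 0]

theorem im4 {t : ℝ} (h1 : -1 ≤ t) (h2 : t ≤ 1) :
    Ok (256 / 27) 3 (-(U4 1 t - V4 1 t)) (-((1 + t) * U4 1 t)) := by
  unfold U4 V4
  rcases le_total t (99 / 100) with c1 | c1
  · refine okz A4 (3 / 4) (by norm_num) ?_ ?_
    · linarith [bn h1 c1 0 3, bn h1 c1 1 2, bn h1 c1 2 1, bn h1 c1 3 0]
    · linarith [bn h1 c1 0 3, bn h1 c1 1 2, bn h1 c1 2 1, bn h1 c1 3 0]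
  refine okz A4 (3 / 4) (by norm_num) ?_ ?_
  · linarith [bn c1 h2 0 3, bn c1 h2 1 2, bn c1 h2 2 1, bn c1 h2 3 0]
  · linarith [bn c1 h2 0 3, bn c1 h2 1 2, bn c1 h2 2 1, bn c1 h2 3 0]

theorem op4 {t : ℝ} (h1 : -1 ≤ t) (h2 : t ≤ 1) :
    Ok (256 / 27) 3 (U4 t 1 - V4 t 1) ((1 + t) * U4 t 1) := by
  unfold U4 V4
  rcases le_total t (-707 / 1000) with c1 | c1
  · refine okz A4 (3 / 4) (by norm_num) ?_ ?_
    · linarith [bn h1 c1 0 3, bn h1 c1 1 2, bn h1 c1 2 1, bn h1 c1 3 0]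
    · linarith [bn h1 c1 0 12, bn h1 c1 1 11, bn h1 c1 2 10, bn h1 c1 3 9, bn h1 c1 4 8,
        bn h1 c1 5 7, bn h1 c1 6 6, bn h1 c1 7 5, bn h1 c1 8 4, bn h1 c1 9 3, bn h1 c1 10 2,
        bn h1 c1 11 1, bn h1 c1 12 0]
  rcases le_total t (707 / 1000) with c2 | c2
  · refine okz A4 (3 / 4) (by norm_num) ?_ ?_
    · linarith [bn c1 c2 0 3, bn c1 c2 1 2, bn c1 c2 2 1, bn c1 c2 3 0]
    · linarith [bn c1 c2 0 4, bn c1 c2 1 3, bn c1 c2 2 2, bn c1 c2 3 1, bn c1 c2 4 0]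
  refine okx A4 ?_ ?_
  · linarith [bn c2 h2 0 4, bn c2 h2 1 3, bn c2 h2 2 2, bn c2 h2 3 1, bn c2 h2 4 0]
  · linarith [bn c2 h2 0 12, bn c2 h2 1 11, bn c2 h2 2 10, bn c2 h2 3 9, bn c2 h2 4 8, bn c2 h2 5 7,
      bn c2 h2 6 6, bn c2 h2 7 5, bn c2 h2 8 4, bn c2 h2 9 3, bn c2 h2 10 2, bn c2 h2 11 1,
      bn c2 h2 12 0]

theorem om4 {t : ℝ} (h1 : -1 ≤ t) (h2 : t ≤ 1) :
    Ok (256 / 27) 3 (-(U4 t 1 - V4 t 1)) (-((1 + t) * U4 t 1)) := by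
  unfold U4 V4
  rcases le_total t 0 with c1 | c1
  · refine okz A4 (3 / 4) (by norm_num) ?_ ?_
    · linarith [bn h1 c1 0 3, bn h1 c1 1 2, bn h1 c1 2 1, bn h1 c1 3 0]
    · linarith [bn h1 c1 0 4, bn h1 c1 1 3, bn h1 c1 2 2]
  refine okz A4 (3 / 4) (by norm_num) ?_ ?_
  · linarith [bn c1 h2 0 3, bn c1 h2 1 2, bn c1 h2 2 1, bn c1 h2 3 0]
  · linarith [bn c1 h2 2 2, bn c1 h2 3 1, bn c1 h2 4 0]

theorem r4 {al be a b : ℝ} (h1 : al + be = 1) (ha : |a| ≤ al) (hb : |b| ≤ be) :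
    |(al - be) * ((256 / 27) * U4 (a + b) (a - b)) + (256 / 27) * V4 (a + b) (a - b)| ≤ 1 :=
  red U4 V4 (fun _ _ _ => by unfold U4; ring) (fun _ _ _ => by unfold V4; ring)
    (fun _ _ => by unfold U4; ring) (fun _ _ => by unfold V4; ring)
    (fun _ c d => ⟨ip4 c d, im4 c d, op4 c d, om4 c d⟩) h1 ha hb

/-- The even part for degree 5. -/
noncomputable def U5 (s d : ℝ) : ℝ := s ^ 4 - 11 / 20 * s ^ 2 * d ^ 2

/-- The odd part for degree 5. -/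
noncomputable def V5 (s d : ℝ) : ℝ := -(4 / 5) * s ^ 3 * d + 9 / 25 * s * d ^ 3

theorem A5 : Adm (3125 / 256) 4 := by norm_num [Adm]

theorem ip5 {t : ℝ} (h1 : -1 ≤ t) (h2 : t ≤ 1) :
    Ok (3125 / 256) 4 (U5 1 t - V5 1 t) ((1 + t) * U5 1 t) := by
  unfold U5 V5
  rcases le_total t (-11 / 20) with c1 | c1
  · refine okz A5 (21 / 25) (by norm_num) ?_ ?_
    · linarith [bn h1 c1 0 3, bn h1 c1 1 2, bn h1 c1 2 1, bn h1 c1 3 0]
    · linarith [bn h1 c1 0 10, bn h1 c1 1 9, bn h1 c1 2 8, bn h1 c1 3 7, bn h1 c1 4 6, bn h1 c1 5 5,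
        bn h1 c1 6 4, bn h1 c1 7 3, bn h1 c1 8 2, bn h1 c1 9 1, bn h1 c1 10 0]
  rcases le_total t 0 with c2 | c2
  · refine okx A5 ?_ ?_
    · linarith [bn c1 c2 0 3, bn c1 c2 1 2, bn c1 c2 2 1, bn c1 c2 3 0]
    · linarith [bn c1 c2 0 15, bn c1 c2 1 14, bn c1 c2 2 13, bn c1 c2 3 12, bn c1 c2 4 11,
        bn c1 c2 5 10, bn c1 c2 6 9, bn c1 c2 7 8, bn c1 c2 8 7, bn c1 c2 9 6, bn c1 c2 10 5,
        bn c1 c2 11 4, bn c1 c2 12 3, bn c1 c2 13 2]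
  refine okx A5 ?_ ?_
  · linarith [bn c2 h2 0 3, bn c2 h2 1 2, bn c2 h2 2 1, bn c2 h2 3 0]
  · linarith [bn c2 h2 2 13, bn c2 h2 3 12, bn c2 h2 4 11, bn c2 h2 5 10, bn c2 h2 6 9,
      bn c2 h2 7 8, bn c2 h2 8 7, bn c2 h2 9 6, bn c2 h2 10 5, bn c2 h2 11 4, bn c2 h2 12 3,
      bn c2 h2 13 2, bn c2 h2 14 1, bn c2 h2 15 0]

theorem im5 {t : ℝ} (h1 : -1 ≤ t) (h2 : t ≤ 1) :
    Ok (3125 / 256) 4 (-(U5 1 t - V5 1 t)) (-((1 + t) * U5 1 t)) := by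
  unfold U5 V5
  rcases le_total t (3 / 5) with c1 | c1
  · refine okz A5 (4 / 5) (by norm_num) ?_ ?_
    · linarith [bn h1 c1 0 3, bn h1 c1 1 2, bn h1 c1 2 1, bn h1 c1 3 0]
    · linarith [bn h1 c1 0 3, bn h1 c1 1 2, bn h1 c1 2 1, bn h1 c1 3 0]
  refine okz A5 (4 / 5) (by norm_num) ?_ ?_
  · linarith [bn c1 h2 0 3, bn c1 h2 1 2, bn c1 h2 2 1, bn c1 h2 3 0]
  · linarith [bn c1 h2 0 3, bn c1 h2 1 2, bn c1 h2 2 1, bn c1 h2 3 0]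

theorem op5 {t : ℝ} (h1 : -1 ≤ t) (h2 : t ≤ 1) :
    Ok (3125 / 256) 4 (U5 t 1 - V5 t 1) ((1 + t) * U5 t 1) := by
  unfold U5 V5
  rcases le_total t (-1 / 5) with c1 | c1
  · refine okz A5 (4 / 5) (by norm_num) ?_ ?_
    · linarith [bn h1 c1 0 4, bn h1 c1 1 3, bn h1 c1 2 2, bn h1 c1 3 1, bn h1 c1 4 0]
    · linarith [bn h1 c1 0 12, bn h1 c1 1 11, bn h1 c1 2 10, bn h1 c1 3 9, bn h1 c1 4 8,
        bn h1 c1 5 7, bn h1 c1 6 6, bn h1 c1 7 5, bn h1 c1 8 4, bn h1 c1 9 3, bn h1 c1 10 2,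
        bn h1 c1 11 1, bn h1 c1 12 0]
  rcases le_total t (4 / 5) with c2 | c2
  · refine okz A5 (4 / 5) (by norm_num) ?_ ?_
    · linarith [bn c1 c2 0 4, bn c1 c2 1 3, bn c1 c2 2 2, bn c1 c2 3 1, bn c1 c2 4 0]
    · linarith [bn c1 c2 0 5, bn c1 c2 1 4, bn c1 c2 2 3, bn c1 c2 3 2, bn c1 c2 4 1, bn c1 c2 5 0]
  rcases le_total t (17 / 20) with c3 | c3
  · refine okz A5 (4 / 5) (by norm_num) ?_ ?_
    · linarith [bn c2 c3 0 4, bn c2 c3 1 3, bn c2 c3 2 2, bn c2 c3 3 1, bn c2 c3 4 0]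
    · linarith [bn c2 c3 0 5, bn c2 c3 1 4, bn c2 c3 2 3, bn c2 c3 3 2, bn c2 c3 4 1, bn c2 c3 5 0]
  rcases le_total t (9 / 10) with c4 | c4
  · refine okz A5 (21 / 25) (by norm_num) ?_ ?_
    · linarith [bn c3 c4 0 4, bn c3 c4 1 3, bn c3 c4 2 2, bn c3 c4 3 1, bn c3 c4 4 0]
    · linarith [bn c3 c4 0 5, bn c3 c4 1 4, bn c3 c4 2 3, bn c3 c4 3 2, bn c3 c4 4 1, bn c3 c4 5 0]
  refine okx A5 ?_ ?_
  · linarith [bn c4 h2 0 5, bn c4 h2 1 4, bn c4 h2 2 3, bn c4 h2 3 2, bn c4 h2 4 1, bn c4 h2 5 0]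
  · linarith [bn c4 h2 0 18, bn c4 h2 1 17, bn c4 h2 2 16, bn c4 h2 3 15, bn c4 h2 4 14,
      bn c4 h2 5 13, bn c4 h2 6 12, bn c4 h2 7 11, bn c4 h2 8 10, bn c4 h2 9 9, bn c4 h2 10 8,
      bn c4 h2 11 7, bn c4 h2 12 6, bn c4 h2 13 5, bn c4 h2 14 4, bn c4 h2 15 3, bn c4 h2 16 2,
      bn c4 h2 17 1, bn c4 h2 18 0]

theorem om5 {t : ℝ} (h1 : -1 ≤ t) (h2 : t ≤ 1) :
    Ok (3125 / 256) 4 (-(U5 t 1 - V5 t 1)) (-((1 + t) * U5 t 1)) := by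
  unfold U5 V5
  rcases le_total t (-4 / 5) with c1 | c1
  · refine okz A5 (4 / 5) (by norm_num) ?_ ?_
    · linarith [bn h1 c1 0 4, bn h1 c1 1 3, bn h1 c1 2 2, bn h1 c1 3 1, bn h1 c1 4 0]
    · linarith [bn h1 c1 0 9, bn h1 c1 1 8, bn h1 c1 2 7, bn h1 c1 3 6, bn h1 c1 4 5, bn h1 c1 5 4,
        bn h1 c1 6 3, bn h1 c1 7 2, bn h1 c1 8 1, bn h1 c1 9 0]
  rcases le_total t (7 / 20) with c2 | c2
  · refine okz A5 (4 / 5) (by norm_num) ?_ ?_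
    · linarith [bn c1 c2 0 4, bn c1 c2 1 3, bn c1 c2 2 2, bn c1 c2 3 1, bn c1 c2 4 0]
    · linarith [bn c1 c2 0 9, bn c1 c2 1 8, bn c1 c2 2 7, bn c1 c2 3 6, bn c1 c2 4 5, bn c1 c2 5 4,
        bn c1 c2 6 3, bn c1 c2 7 2, bn c1 c2 8 1, bn c1 c2 9 0]
  refine okz A5 (4 / 5) (by norm_num) ?_ ?_
  · linarith [bn c2 h2 0 4, bn c2 h2 1 3, bn c2 h2 2 2, bn c2 h2 3 1, bn c2 h2 4 0]
  · linarith [bn c2 h2 0 5, bn c2 h2 1 4, bn c2 h2 2 3, bn c2 h2 3 2, bn c2 h2 4 1, bn c2 h2 5 0]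

theorem r5 {al be a b : ℝ} (h1 : al + be = 1) (ha : |a| ≤ al) (hb : |b| ≤ be) :
    |(al - be) * ((3125 / 256) * U5 (a + b) (a - b)) + (3125 / 256) * V5 (a + b) (a - b)| ≤ 1 :=
  red U5 V5 (fun _ _ _ => by unfold U5; ring) (fun _ _ _ => by unfold V5; ring)
    (fun _ _ => by unfold U5; ring) (fun _ _ => by unfold V5; ring)
    (fun _ c d => ⟨ip5 c d, im5 c d, op5 c d, om5 c d⟩) h1 ha hb

/-- The even part for degree 6. -/
noncomputable def U6 (s d : ℝ) : ℝ := s ^ 5 - 3 / 4 * s ^ 3 * d ^ 2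

/-- The odd part for degree 6. -/
noncomputable def V6 (s d : ℝ) : ℝ := -(5 / 6) * s ^ 4 * d + 11 / 20 * s ^ 2 * d ^ 3

theorem A6 : Adm (46656 / 3125) 5 := by norm_num [Adm]

theorem ip6 {t : ℝ} (h1 : -1 ≤ t) (h2 : t ≤ 1) :
    Ok (46656 / 3125) 5 (U6 1 t - V6 1 t) ((1 + t) * U6 1 t) := by
  unfold U6 V6
  rcases le_total t (-9 / 20) with c1 | c1
  · refine okz A6 (22 / 25) (by norm_num) ?_ ?_
    · linarith [bn h1 c1 0 3, bn h1 c1 1 2, bn h1 c1 2 1, bn h1 c1 3 0]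
    · linarith [bn h1 c1 0 4, bn h1 c1 1 3, bn h1 c1 2 2, bn h1 c1 3 1, bn h1 c1 4 0]
  rcases le_total t 0 with c2 | c2
  · refine okx A6 ?_ ?_
    · linarith [bn c1 c2 0 3, bn c1 c2 1 2, bn c1 c2 2 1, bn c1 c2 3 0]
    · linarith [bn c1 c2 0 18, bn c1 c2 1 17, bn c1 c2 2 16, bn c1 c2 3 15, bn c1 c2 4 14,
        bn c1 c2 5 13, bn c1 c2 6 12, bn c1 c2 7 11, bn c1 c2 8 10, bn c1 c2 9 9, bn c1 c2 10 8,
        bn c1 c2 11 7, bn c1 c2 12 6, bn c1 c2 13 5, bn c1 c2 14 4, bn c1 c2 15 3, bn c1 c2 16 2]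
  refine okx A6 ?_ ?_
  · linarith [bn c2 h2 0 3, bn c2 h2 1 2, bn c2 h2 2 1, bn c2 h2 3 0]
  · linarith [bn c2 h2 2 16, bn c2 h2 3 15, bn c2 h2 4 14, bn c2 h2 5 13, bn c2 h2 6 12,
      bn c2 h2 7 11, bn c2 h2 8 10, bn c2 h2 9 9, bn c2 h2 10 8, bn c2 h2 11 7, bn c2 h2 12 6,
      bn c2 h2 13 5, bn c2 h2 14 4, bn c2 h2 15 3, bn c2 h2 16 2, bn c2 h2 17 1, bn c2 h2 18 0]

theorem im6 {t : ℝ} (h1 : -1 ≤ t) (h2 : t ≤ 1) :
    Ok (46656 / 3125) 5 (-(U6 1 t - V6 1 t)) (-((1 + t) * U6 1 t)) := by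
  unfold U6 V6
  rcases le_total t (13 / 20) with c1 | c1
  · refine okz A6 (5 / 6) (by norm_num) ?_ ?_
    · linarith [bn h1 c1 0 3, bn h1 c1 1 2, bn h1 c1 2 1, bn h1 c1 3 0]
    · linarith [bn h1 c1 0 11, bn h1 c1 1 10, bn h1 c1 2 9, bn h1 c1 3 8, bn h1 c1 4 7,
        bn h1 c1 5 6, bn h1 c1 6 5, bn h1 c1 7 4, bn h1 c1 8 3, bn h1 c1 9 2, bn h1 c1 10 1,
        bn h1 c1 11 0]
  refine okz A6 (5 / 6) (by norm_num) ?_ ?_
  · linarith [bn c1 h2 0 3, bn c1 h2 1 2, bn c1 h2 2 1, bn c1 h2 3 0]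
  · linarith [bn c1 h2 0 3, bn c1 h2 1 2, bn c1 h2 2 1, bn c1 h2 3 0]

theorem op6 {t : ℝ} (h1 : -1 ≤ t) (h2 : t ≤ 1) :
    Ok (46656 / 3125) 5 (U6 t 1 - V6 t 1) ((1 + t) * U6 t 1) := by
  unfold U6 V6
  rcases le_total t (-3 / 4) with c1 | c1
  · refine okz A6 (5 / 6) (by norm_num) ?_ ?_
    · linarith [bn h1 c1 0 5, bn h1 c1 1 4, bn h1 c1 2 3, bn h1 c1 3 2, bn h1 c1 4 1, bn h1 c1 5 0]
    · linarith [bn h1 c1 0 11, bn h1 c1 1 10, bn h1 c1 2 9, bn h1 c1 3 8, bn h1 c1 4 7,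
        bn h1 c1 5 6, bn h1 c1 6 5, bn h1 c1 7 4, bn h1 c1 8 3, bn h1 c1 9 2, bn h1 c1 10 1,
        bn h1 c1 11 0]
  rcases le_total t (9 / 10) with c2 | c2
  · refine okz A6 (5 / 6) (by norm_num) ?_ ?_
    · linarith [bn c1 c2 0 6, bn c1 c2 1 5, bn c1 c2 2 4, bn c1 c2 3 3, bn c1 c2 4 2, bn c1 c2 5 1,
        bn c1 c2 6 0]
    · linarith [bn c1 c2 0 12, bn c1 c2 1 11, bn c1 c2 2 10, bn c1 c2 3 9, bn c1 c2 4 8,
        bn c1 c2 5 7, bn c1 c2 6 6, bn c1 c2 7 5, bn c1 c2 8 4, bn c1 c2 9 3, bn c1 c2 10 2,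
        bn c1 c2 11 1, bn c1 c2 12 0]
  rcases le_total t (19 / 20) with c3 | c3
  · refine okz A6 (5 / 6) (by norm_num) ?_ ?_
    · linarith [bn c2 c3 0 5, bn c2 c3 1 4, bn c2 c3 2 3, bn c2 c3 3 2, bn c2 c3 4 1, bn c2 c3 5 0]
    · linarith [bn c2 c3 0 6, bn c2 c3 1 5, bn c2 c3 2 4, bn c2 c3 3 3, bn c2 c3 4 2, bn c2 c3 5 1,
        bn c2 c3 6 0]
  refine okz A6 (9 / 10) (by norm_num) ?_ ?_
  · linarith [bn c3 h2 0 5, bn c3 h2 1 4, bn c3 h2 2 3, bn c3 h2 3 2, bn c3 h2 4 1, bn c3 h2 5 0]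
  · linarith [bn c3 h2 0 6, bn c3 h2 1 5, bn c3 h2 2 4, bn c3 h2 3 3, bn c3 h2 4 2, bn c3 h2 5 1,
      bn c3 h2 6 0]

theorem om6 {t : ℝ} (h1 : -1 ≤ t) (h2 : t ≤ 1) :
    Ok (46656 / 3125) 5 (-(U6 t 1 - V6 t 1)) (-((1 + t) * U6 t 1)) := by
  unfold U6 V6
  rcases le_total t (-3 / 20) with c1 | c1
  · refine okz A6 (5 / 6) (by norm_num) ?_ ?_
    · linarith [bn h1 c1 0 5, bn h1 c1 1 4, bn h1 c1 2 3, bn h1 c1 3 2, bn h1 c1 4 1, bn h1 c1 5 0]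
    · linarith [bn h1 c1 0 14, bn h1 c1 1 13, bn h1 c1 2 12, bn h1 c1 3 11, bn h1 c1 4 10,
        bn h1 c1 5 9, bn h1 c1 6 8, bn h1 c1 7 7, bn h1 c1 8 6, bn h1 c1 9 5, bn h1 c1 10 4,
        bn h1 c1 11 3, bn h1 c1 12 2, bn h1 c1 13 1, bn h1 c1 14 0]
  rcases le_total t (7 / 10) with c2 | c2
  · refine okz A6 (5 / 6) (by norm_num) ?_ ?_
    · linarith [bn c1 c2 0 5, bn c1 c2 1 4, bn c1 c2 2 3, bn c1 c2 3 2, bn c1 c2 4 1, bn c1 c2 5 0]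
    · linarith [bn c1 c2 0 13, bn c1 c2 1 12, bn c1 c2 2 11, bn c1 c2 3 10, bn c1 c2 4 9,
        bn c1 c2 5 8, bn c1 c2 6 7, bn c1 c2 7 6, bn c1 c2 8 5, bn c1 c2 9 4, bn c1 c2 10 3,
        bn c1 c2 11 2, bn c1 c2 12 1, bn c1 c2 13 0]
  refine okz A6 (5 / 6) (by norm_num) ?_ ?_
  · linarith [bn c2 h2 0 5, bn c2 h2 1 4, bn c2 h2 2 3, bn c2 h2 3 2, bn c2 h2 4 1, bn c2 h2 5 0]
  · linarith [bn c2 h2 0 6, bn c2 h2 1 5, bn c2 h2 2 4, bn c2 h2 3 3, bn c2 h2 4 2, bn c2 h2 5 1,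
      bn c2 h2 6 0]

theorem r6 {al be a b : ℝ} (h1 : al + be = 1) (ha : |a| ≤ al) (hb : |b| ≤ be) :
    |(al - be) * ((46656 / 3125) * U6 (a + b) (a - b)) + (46656 / 3125) * V6 (a + b) (a - b)| ≤ 1 :=
  red U6 V6 (fun _ _ _ => by unfold U6; ring) (fun _ _ _ => by unfold V6; ring)
    (fun _ _ => by unfold U6; ring) (fun _ _ => by unfold V6; ring)
    (fun _ c d => ⟨ip6 c d, im6 c d, op6 c d, om6 c d⟩) h1 ha hb

/-! ### All degrees from seven on -/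

theorem low {a b : ℝ} (h0 : 0 < a) (h1 : a ≤ 1) (h : b * (1 + a) ≤ 2 * a * (1 - a)) :
    b ≤ -(a * Real.log a) := by
  have c := Real.le_log_one_add_of_nonneg (x := a⁻¹ - 1) (sub_nonneg.2 ((one_le_inv₀ h0).2 h1))
  have e : 2 * (a⁻¹ - 1) / (a⁻¹ - 1 + 2) = 2 * (1 - a) / (1 + a) := by
    rw [div_eq_div_iff (by have := inv_pos.2 h0; linarith) (by linarith)]
    field_simp
    ring
  rw [add_sub_cancel, Real.log_inv, e, div_le_iff₀ (by linarith)] at c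
  refine le_of_mul_le_mul_right ?_ (by linarith : 0 < 1 + a)
  nlinarith

theorem high {a b : ℝ} (h1 : 1 ≤ a) (h : 2 * b ≤ 1 - a * a) : b ≤ -(a * Real.log a) := by
  have h0 : 0 < a := by linarith
  have c := Real.self_le_sinh_iff.2 (Real.log_nonneg h1)
  rw [Real.sinh_log h0] at c
  have d := mul_le_mul_of_nonneg_left c h0.le
  have e := mul_inv_cancel₀ h0.ne'
  linarith

theorem box {M w al : ℝ} {n : ℕ} (h : Adm M n) (h1 : al ≤ 367 / 1000)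
    (h2 : (n + 1) * (w - al) ≤ 367 / 1000) : Ok M n w al := by
  have c : Real.log (367 / 1000) ≤ -1 :=
    (Real.log_le_iff_le_exp (by norm_num)).2 (by linarith [Real.exp_neg_one_gt_d9])
  exact okl h (by norm_num) (by linarith) h1 h2

theorem ip7 {M w al t : ℝ} {n : ℕ} (h : Adm M n) (h1 : -1 ≤ t) (h2 : t ≤ 1)
    (ha : al = (1 + t) * (1 - 9 / 10 * t ^ 2)) (hb : (n + 1) * (w - al) = 13 / 10 * t ^ 3 - t) :
    Ok M n w al := by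
  rcases le_total t (-13 / 25) with c1 | c1
  · refine box h (ha.le.trans ?_) (hb.le.trans ?_)
    · linarith [bn h1 c1 0 3, bn h1 c1 1 2, bn h1 c1 2 1, bn h1 c1 3 0]
    · linarith [bn h1 c1 0 3, bn h1 c1 1 2, bn h1 c1 2 1, bn h1 c1 3 0]
  rcases le_total t 0 with c2 | c2
  · have a0 : 0 < al := by
      linarith [bn c1 c2 0 3, bn c1 c2 1 2, bn c1 c2 2 1, bn c1 c2 3 0]
    refine okl h a0 (low a0 ?_ ?_) le_rfl hb.le
    · linarith [bn c1 c2 0 3, bn c1 c2 1 2, bn c1 c2 2 1]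
    · rw [ha]
      linarith [bn c1 c2 0 6, bn c1 c2 1 5, bn c1 c2 2 4, bn c1 c2 3 3, bn c1 c2 4 2]
  rcases le_total 1 al with c3 | c3
  · refine okl h (by linarith) (high c3 ?_) le_rfl hb.le
    rw [ha]
    linarith [bn c2 h2 2 4, bn c2 h2 3 3, bn c2 h2 4 2, bn c2 h2 5 1, bn c2 h2 6 0]
  rcases le_total t (87 / 100) with c4 | c4
  · refine okl h one_pos (b := 0) (by simp) c3 (hb.le.trans ?_)
    linarith [bn c2 c4 1 2, bn c2 c4 2 1, bn c2 c4 3 0]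
  refine okl h (a := 3 / 5) (b := 3 / 10) (by norm_num)
    (low (by norm_num) (by norm_num) (by norm_num)) (ha.le.trans ?_) (hb.le.trans ?_)
  · linarith [bn c4 h2 0 3, bn c4 h2 1 2, bn c4 h2 2 1, bn c4 h2 3 0]
  · linarith [bn c4 h2 0 3, bn c4 h2 1 2, bn c4 h2 2 1]

theorem im7 {M w al t : ℝ} {n : ℕ} (h : Adm M n) (h1 : -1 ≤ t) (h2 : t ≤ 1)
    (ha : al = (1 + t) * (1 - 9 / 10 * t ^ 2)) (hb : (n + 1) * (w - al) = 13 / 10 * t ^ 3 - t) :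
    Ok M n (-w) (-al) := by
  refine box h ?_ ?_
  · linarith [bn h1 h2 0 3, bn h1 h2 1 2, bn h1 h2 2 1, bn h1 h2 3 0]
  rcases le_total t (1 / 2) with c1 | c1
  · linarith [bn h1 c1 0 3, bn h1 c1 1 2, bn h1 c1 2 1, bn h1 c1 3 0]
  · linarith [bn c1 h2 0 3, bn c1 h2 1 2, bn c1 h2 2 1, bn c1 h2 3 0]

theorem geo {x : ℝ} (h0 : 0 ≤ x) (h1 : x ≤ 1) (j : ℕ) : j * x ^ j * (1 - x) ≤ x * (1 - x ^ j) := by
  induction j with
  | zero => simp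
  | succ j ih =>
    have a := mul_le_mul_of_nonneg_left ih h0
    have b := mul_nonneg (mul_nonneg h0 (sub_nonneg.2 h1)) (sub_nonneg.2 (pow_le_one₀ (n := j) h0 h1))
    push_cast
    rw [pow_succ]
    linarith

theorem q1 {x : ℝ} (h1 : 0 ≤ x) (h2 : x ≤ 1) :
    |x ^ 3 * (7 * ((1 - x ^ 2) * (x ^ 2 - 9 / 10)) + 13 / 10 - x ^ 2)| ≤ 367 / 1000 := by
  refine abs_le.2 ⟨?_, ?_⟩
  · rcases le_total x (1 / 2) with c1 | c1
    · linarith [bn h1 c1 0 7, bn h1 c1 1 6, bn h1 c1 2 5, bn h1 c1 3 4, bn h1 c1 4 3, bn h1 c1 5 2,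
        bn h1 c1 6 1, bn h1 c1 7 0]
    · linarith [bn c1 h2 0 7, bn c1 h2 1 6, bn c1 h2 2 5, bn c1 h2 3 4, bn c1 h2 4 3, bn c1 h2 5 2,
        bn c1 h2 6 1, bn c1 h2 7 0]
  · rcases le_total x (19 / 20) with c1 | c1
    · linarith [bn h1 c1 0 7, bn h1 c1 1 6, bn h1 c1 2 5, bn h1 c1 3 4, bn h1 c1 4 3, bn h1 c1 5 2,
        bn h1 c1 6 1, bn h1 c1 7 0]
    · linarith [bn c1 h2 0 7, bn c1 h2 1 6, bn c1 h2 2 5, bn c1 h2 3 4, bn c1 h2 4 3, bn c1 h2 5 2,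
        bn c1 h2 6 1, bn c1 h2 7 0]

theorem q2 {x : ℝ} (h1 : 0 ≤ x) (h2 : x ≤ 1) :
    |x ^ 4 * (1 + x) * (x ^ 2 - 9 / 10)| ≤ 367 / 1000 := by
  refine abs_le.2 ⟨?_, ?_⟩
  · linarith [bn h1 h2 0 9, bn h1 h2 1 8, bn h1 h2 2 7, bn h1 h2 3 6, bn h1 h2 4 5, bn h1 h2 5 4,
      bn h1 h2 6 3, bn h1 h2 7 2, bn h1 h2 8 1, bn h1 h2 9 0]
  · linarith [bn h1 h2 0 7, bn h1 h2 1 6, bn h1 h2 2 5, bn h1 h2 3 4, bn h1 h2 4 3, bn h1 h2 5 2,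
      bn h1 h2 6 1, bn h1 h2 7 0]

theorem q3 {x : ℝ} (h1 : 0 ≤ x) (h2 : x ≤ 1) (j : ℕ) :
    |x ^ (j + 3) * ((j + 7) * ((1 - x ^ 2) * (x ^ 2 - 9 / 10)) + 13 / 10 - x ^ 2)| ≤
      367 / 1000 := by
  have l0 := pow_nonneg h1 j
  have l1 := pow_le_one₀ (n := j) h1 h2
  have m0 : 0 ≤ j * x ^ j * (1 - x) := mul_nonneg (by positivity) (sub_nonneg.2 h2)
  have a := mul_le_mul_of_nonneg_left (q1 h1 h2) l0
  have b := mul_le_mul_of_nonneg_left (q2 h1 h2) (sub_nonneg.2 l1)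
  have c := mul_le_mul_of_nonneg_right (geo h1 h2 j)
    (abs_nonneg (x ^ 3 * (1 + x) * (x ^ 2 - 9 / 10)))
  rw [show x ^ 4 * (1 + x) * (x ^ 2 - 9 / 10) = x * (x ^ 3 * (1 + x) * (x ^ 2 - 9 / 10)) by ring,
    abs_mul, abs_of_nonneg h1] at b
  rw [show x ^ (j + 3) * ((j + 7) * ((1 - x ^ 2) * (x ^ 2 - 9 / 10)) + 13 / 10 - x ^ 2) =
    x ^ j * (x ^ 3 * (7 * ((1 - x ^ 2) * (x ^ 2 - 9 / 10)) + 13 / 10 - x ^ 2)) +
      j * x ^ j * (1 - x) * (x ^ 3 * (1 + x) * (x ^ 2 - 9 / 10)) by ring]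
  refine (abs_add_le _ _).trans ?_
  rw [abs_mul, abs_mul _ (x ^ 3 * (1 + x) * (x ^ 2 - 9 / 10)), abs_of_nonneg l0, abs_of_nonneg m0]
  linarith

theorem o7 {M w al t : ℝ} {n j : ℕ} (h : Adm M n) (h1 : -1 ≤ t) (h2 : t ≤ 1)
    (ha : al = (1 + t) * (t ^ j * (t ^ 4 * (t ^ 2 - 9 / 10))))
    (hb : (n + 1) * (w - al) =
      t ^ (j + 3) * ((j + 7) * ((1 - t ^ 2) * (t ^ 2 - 9 / 10)) + 13 / 10 - t ^ 2)) :
    Ok M n w al ∧ Ok M n (-w) (-al) := by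
  have x0 := abs_nonneg t
  have x1 : |t| ≤ 1 := abs_le.2 ⟨h1, h2⟩
  have a := q2 x0 x1
  have b := q3 x0 x1 j
  rw [abs_mul, abs_pow, abs_abs, sq_abs, ← abs_pow, ← abs_mul, ← hb, abs_le] at b
  rw [abs_mul, abs_mul, abs_pow, abs_abs, sq_abs, abs_of_nonneg (by linarith : 0 ≤ 1 + |t|)] at a
  have c : |al| ≤ 367 / 1000 := by
    rw [ha, abs_mul, abs_mul, abs_mul, abs_pow, abs_pow, abs_of_nonneg (by linarith : 0 ≤ 1 + t)]
    refine le_trans ?_ a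
    calc _ ≤ (1 + |t|) * (1 * (|t| ^ 4 * |t ^ 2 - 9 / 10|)) := by
          gcongr
          · exact le_abs_self t
          · exact pow_le_one₀ x0 x1
      _ = _ := by ring
  rw [abs_le] at c
  exact ⟨box h c.2 b.2, box h (by linarith) (by linarith)⟩

/-- The even part for large degrees. -/
noncomputable def U7 (m : ℕ) (s d : ℝ) : ℝ := s ^ (m + 3) - 9 / 10 * s ^ (m + 1) * d ^ 2

/-- The odd part for large degrees. -/
noncomputable def V7 (m : ℕ) (s d : ℝ) : ℝ :=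
  -(((m : ℝ) + 3) / ((m : ℝ) + 4)) * s ^ (m + 2) * d +
    (9 / 10 - 13 / 10 / ((m : ℝ) + 4)) * s ^ m * d ^ 3

theorem A7 (m : ℕ) : Adm (((m : ℝ) + 4) ^ (m + 4) / ((m : ℝ) + 3) ^ (m + 3)) (m + 3) := by
  refine ⟨by omega, by positivity, le_of_eq ?_⟩
  push_cast
  rw [div_mul_cancel₀ _ (by positivity), add_assoc (m : ℝ)]
  norm_num

theorem r7 (j : ℕ) {M al be a b : ℝ} (h : Adm M (j + 3 + 3)) (h1 : al + be = 1) (ha : |a| ≤ al)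
    (hb : |b| ≤ be) :
    |(al - be) * (M * U7 (j + 3) (a + b) (a - b)) + M * V7 (j + 3) (a + b) (a - b)| ≤ 1 := by
  have k0 : (j : ℝ) + 3 + 4 ≠ 0 := by positivity
  refine red (n := j + 3 + 3) (U7 (j + 3)) (V7 (j + 3)) (fun _ _ _ => by unfold U7; ring)
    (fun _ _ _ => by unfold V7; ring) (fun _ _ => by unfold U7; ring)
    (fun _ _ => by unfold V7; ring) (fun t c d => ?_) h1 ha hb
  have e1 : (1 + t) * U7 (j + 3) 1 t = (1 + t) * (1 - 9 / 10 * t ^ 2) := by simp [U7]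
  have e2 : (((j + 3 + 3 : ℕ) : ℝ) + 1) * (U7 (j + 3) 1 t - V7 (j + 3) 1 t -
      (1 + t) * U7 (j + 3) 1 t) = 13 / 10 * t ^ 3 - t := by
    simp only [U7, V7, one_pow]
    push_cast
    field_simp
    ring
  refine ⟨ip7 h c d e1 e2, im7 h c d e1 e2, o7 (j := j) h c d ?_ ?_⟩
  · unfold U7
    ring
  · simp only [U7, V7, one_pow]
    push_cast
    field_simp
    ring

/-! ### The results -/

theorem two (al be a b : ℝ) (h1 : al + be = 1) (ha : |a| ≤ al) (hb : |b| ≤ be) :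
    |(al - be) * (2 * (a + b)) - (a - b)| ≤ 1 :=
  le_of_eq_of_le (congrArg _ (by unfold U2 V2; ring)) (r2 h1 ha hb)

theorem three (al be a b : ℝ) (h1 : al + be = 1) (ha : |a| ≤ al) (hb : |b| ≤ be) :
    |(al - be) * (4 * (a + b) ^ 2) - 3 * (a + b) * (a - b)| ≤ 1 :=
  le_of_eq_of_le (congrArg _ (by unfold U3 V3; ring)) (r3 h1 ha hb)

theorem four : ∃ c0 c1 c2 c3 : ℝ, 7999 / 1000 ≤ c0 ∧ ∀ al be a b : ℝ, al + be = 1 → |a| ≤ al →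
    |b| ≤ be → |(al - be) * (c0 * (a + b) ^ 3 + c1 * (a + b) * (a - b) ^ 2) +
      c2 * (a + b) ^ 2 * (a - b) + c3 * (a - b) ^ 3| ≤ 1 :=
  ⟨7999 / 1000, -(303 / 200), -(64843 / 10000), 1, le_rfl, fun _ _ _ _ h1 ha hb =>
    le_of_eq_of_le (congrArg _ (by unfold U4 V4; ring)) (r4 h1 ha hb)⟩

theorem big (m : ℕ) (hm : 1 ≤ m) : ∃ p q : ℝ, ∀ al be a b : ℝ, al + be = 1 → |a| ≤ al →
    |b| ≤ be → |(al - be) * (((m : ℝ) + 4) ^ (m + 4) / ((m : ℝ) + 3) ^ (m + 3) *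
        ((a + b) ^ (m + 3) - p * (a + b) ^ (m + 1) * (a - b) ^ 2)) +
      ((m : ℝ) + 4) ^ (m + 4) / ((m : ℝ) + 3) ^ (m + 3) *
        (-(((m : ℝ) + 3) / ((m : ℝ) + 4)) * (a + b) ^ (m + 2) * (a - b) +
          (p - q / ((m : ℝ) + 4)) * (a + b) ^ m * (a - b) ^ 3)| ≤ 1 := by
  match m, hm with
  | 1, _ =>
    exact ⟨11 / 20, 19 / 20, fun _ _ _ _ h1 ha hb =>
      le_of_eq_of_le (congrArg _ (by unfold U5 V5; push_cast; ring)) (r5 h1 ha hb)⟩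
  | 2, _ =>
    exact ⟨3 / 4, 6 / 5, fun _ _ _ _ h1 ha hb =>
      le_of_eq_of_le (congrArg _ (by unfold U6 V6; push_cast; ring)) (r6 h1 ha hb)⟩
  | j + 3, _ => exact ⟨9 / 10, 13 / 10, fun _ _ _ _ h1 ha hb => r7 j (A7 (j + 3)) h1 ha hb⟩

end Pool.Agent.Lib.PN93.I49
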