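import Pool.Agent.Lib.PN93.Test

/-! The real space `L¹[0,1]`: small pieces, and the two-block polynomials. -/

namespace Pool.Agent.Lib.PN93
open Finset MeasureTheory

section Mul
variable {Ω : Type} [MeasurableSpace Ω] {μ : Measure Ω}

def Bd (w : Ω → ℝ) : Prop := Measurable w ∧ ∀ x, |w x| ≤ 1

lemma Bd.mul {w w' : Ω → ℝ} (h : Bd w) (h' : Bd w') : Bd fun x => w x * w' x :=
  ⟨h.1.mul h'.1, fun x => by rw [abs_mul]; exact mul_le_one₀ (h.2 x) (abs_nonneg _) (h'.2 x)⟩

lemma Bd.ite {p : Ω → Prop} [DecidablePred p] (hp : MeasurableSet {x | p x}) {a b : ℝ}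
    (ha : |a| ≤ 1) (hb : |b| ≤ 1) : Bd fun x => if p x then a else b :=
  ⟨Measurable.ite hp measurable_const measurable_const, fun x => by dsimp only; split_ifs <;> assumption⟩

lemma Bd.int {w F : Ω → ℝ} (h : Bd w) (hF : Integrable F μ) : Integrable (fun x => w x * F x) μ :=
  hF.bdd_mul h.1.aestronglyMeasurable (Filter.Eventually.of_forall h.2)

/-- multiplication by a bounded function -/
noncomputable def mulL (μ : Measure Ω) {w : Ω → ℝ} (h : Bd w) : Lp ℝ 1 μ →L[ℝ] Lp ℝ 1 μ :=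
  (ContinuousLinearMap.mul ℝ ℝ).holderL μ ⊤ 1 1
    ((memLp_top_of_bound h.1.aestronglyMeasurable 1 (Filter.Eventually.of_forall h.2)).toLp w)

lemma coe_mulL {w : Ω → ℝ} (h : Bd w) (u : Lp ℝ 1 μ) : mulL μ h u =ᵐ[μ] fun x => w x * u x := by
  filter_upwards [(ContinuousLinearMap.mul ℝ ℝ).coeFn_holder (r := 1)
    ((memLp_top_of_bound h.1.aestronglyMeasurable 1 (Filter.Eventually.of_forall h.2)).toLp w) u,
    (memLp_top_of_bound (μ := μ) h.1.aestronglyMeasurable 1
      (Filter.Eventually.of_forall h.2)).coeFn_toLp] with x h1 h2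
  rw [← h2]; exact h1

/-- integration against a bounded function -/
noncomputable def intL (μ : Measure Ω) {w : Ω → ℝ} (h : Bd w) : Lp ℝ 1 μ →L[ℝ] ℝ :=
  L1.integralCLM.comp (mulL μ h)

lemma intL_eq {w : Ω → ℝ} (h : Bd w) (u : Lp ℝ 1 μ) : intL μ h u = ∫ x, w x * u x ∂μ := by
  rw [intL, ContinuousLinearMap.comp_apply, ← L1.integral_eq, L1.integral_eq_integral]
  exact integral_congr_ae (coe_mulL h u)

lemma norm_mulL {w : Ω → ℝ} (h : Bd w) (u : Lp ℝ 1 μ) :
    ‖mulL μ h u‖ = ∫ x, |w x| * |u x| ∂μ := by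
  rw [L1.norm_eq_integral_norm]
  refine integral_congr_ae ?_
  filter_upwards [coe_mulL h u] with x hx
  rw [hx, Real.norm_eq_abs, abs_mul]

lemma intL_mulL {w w' : Ω → ℝ} (h : Bd w) (h' : Bd w') (u : Lp ℝ 1 μ) :
    intL μ h (mulL μ h' u) = ∫ x, w x * (w' x * u x) ∂μ := by
  rw [intL_eq]
  refine integral_congr_ae ?_
  filter_upwards [coe_mulL h' u] with x hx
  rw [hx]

lemma abs_intL {w : Ω → ℝ} (h : Bd w) (u : Lp ℝ 1 μ) : |intL μ h u| ≤ ∫ x, |w x| * |u x| ∂μ := by
  rw [intL_eq]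
  simpa only [abs_mul] using abs_integral_le_integral_abs (μ := μ) (f := fun x => w x * u x)
end Mul

/-- Lebesgue measure on `[0,1]` -/
noncomputable abbrev mu : Measure ℝ := volume.restrict (Set.Icc 0 1)

noncomputable abbrev LL := Lp ℝ 1 mu

lemma small (f : LL) {ε : ℝ} (hε : 0 < ε) : ∃ N : ℕ, ∀ n : ℕ,
    ∫ x, (if ⌊(N + 1 : ℝ) * x⌋₊ = n then 1 else 0) * |f x| ∂mu ≤ ε := by
  have hf := L1.integrable_coeFn f
  obtain ⟨δ, hδ, h⟩ := exists_pos_setLIntegral_lt_of_measure_lt (μ := mu) (f := fun x => ‖f x‖ₑ)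
    hf.2.ne (ε := ENNReal.ofReal ε) (by simpa using hε)
  obtain ⟨N, hN⟩ := ENNReal.exists_inv_nat_lt hδ.ne'
  refine ⟨N, fun n => ?_⟩
  have hp : (0 : ℝ) < N + 1 := by positivity
  have h1 := h (Set.Icc (n / (N + 1)) ((n + 1) / (N + 1))) (by
    refine lt_of_le_of_lt ?_ hN
    refine (Measure.restrict_le_self _).trans ?_
    rw [Real.volume_Icc, ← sub_div, add_sub_cancel_left, one_div,
      ENNReal.ofReal_inv_of_pos hp]
    refine ENNReal.inv_le_inv.mpr ?_
    rw [← ENNReal.ofReal_natCast]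
    exact ENNReal.ofReal_le_ofReal (by linarith))
  have h2 := ENNReal.toReal_lt_of_lt_ofReal h1
  rw [← integral_norm_eq_lintegral_enorm hf.1.restrict, ← integral_indicator measurableSet_Icc] at h2
  refine le_trans (integral_mono_of_nonneg ?_ (hf.norm.indicator measurableSet_Icc) ?_) h2.le
  · exact Filter.Eventually.of_forall fun x => by dsimp; split_ifs <;> positivity
  · filter_upwards [ae_restrict_mem measurableSet_Icc] with x hx
    split_ifs with hn
    · rw [Nat.floor_eq_iff (mul_nonneg hp.le hx.1)] at hn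
      rw [Set.indicator_of_mem, one_mul, Real.norm_eq_abs]
      exact ⟨by rw [div_le_iff₀ hp]; linarith [hn.1], by rw [le_div_iff₀ hp]; linarith [hn.2]⟩
    · rw [zero_mul]; exact Set.indicator_nonneg (fun _ _ => norm_nonneg _) _

theorem split_L1 (f u : LL) (hf : ‖f‖ = 1) : ∃ s, 0 ≤ s ∧ s ≤ 1 ∧ Split f u s := by
  have mf := (Lp.stronglyMeasurable f).measurable
  have mu' := (Lp.stronglyMeasurable u).measurable
  have fi := (L1.integrable_coeFn f).abs
  have hg : Bd fun x => if 0 ≤ u x then (1 : ℝ) else -1 :=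
    Bd.ite (measurableSet_le measurable_const mu') (by simp) (by simp)
  set g := fun x => if 0 ≤ u x then (1 : ℝ) else -1 with gd
  have g1 : ∀ x, |g x| = 1 := fun x => by simp only [gd]; split_ifs <;> simp
  have ht : ∀ b : Bool, Bd fun x => if decide (0 ≤ g x * f x) = b then (1 : ℝ) else 0 := fun b =>
    Bd.ite (by
      have := measurableSet_le measurable_const (hg.1.mul mf) (f := fun _ => (0 : ℝ))
      cases b
      · simp only [decide_eq_false_iff_not]; exact this.compl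
      · simpa using this) (by simp) (by simp)
  set τ := fun (b : Bool) x => if decide (0 ≤ g x * f x) = b then (1 : ℝ) else 0 with τd
  have t0 : ∀ b x, 0 ≤ τ b x := fun b x => by simp only [τd]; split_ifs <;> simp
  have t1 : ∀ x, τ true x + τ false x = 1 := fun x => by
    simp only [τd]; cases decide (0 ≤ g x * f x) <;> simp
  have n1 : ∫ x, |f x| ∂mu = 1 := by rw [← hf, L1.norm_eq_integral_norm]; rfl
  have s1 : ∫ x, τ true x * |f x| ∂mu + ∫ x, τ false x * |f x| ∂mu = 1 := by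
    refine (integral_add ((ht true).int fi) ((ht false).int fi)).symm.trans (Eq.trans ?_ n1)
    exact integral_congr_ae (Filter.Eventually.of_forall fun x => by
      change τ true x * _ + τ false x * _ = _
      rw [← add_mul, t1, one_mul])
  have s0 : ∀ b, 0 ≤ ∫ x, τ b x * |f x| ∂mu := fun b =>
    integral_nonneg fun x => mul_nonneg (t0 b x) (abs_nonneg _)
  refine ⟨∫ x, τ true x * |f x| ∂mu, s0 _, by linarith [s0 false], fun ε hε => ?_⟩
  obtain ⟨N, hN⟩ := small f hε
  have hc : ∀ n : ℕ, Bd fun x : ℝ => if ⌊(N + 1 : ℝ) * x⌋₊ = n then (1 : ℝ) else 0 := fun n =>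
    Bd.ite ((Nat.measurable_floor.comp (measurable_id.const_mul _)) (measurableSet_singleton n))
      (by simp) (by simp)
  set χ := fun (n : ℕ) (x : ℝ) => if ⌊(N + 1 : ℝ) * x⌋₊ = n then (1 : ℝ) else 0 with χd
  have c0 : ∀ n x, 0 ≤ χ n x := fun n x => by simp only [χd]; split_ifs <;> simp
  have c1 : ∀ᵐ x ∂mu, ∑ n : Fin (N + 2), χ n x = 1 := by
    filter_upwards [ae_restrict_mem measurableSet_Icc] with x hx
    have : ⌊(N + 1 : ℝ) * x⌋₊ < N + 2 := by
      rw [Nat.floor_lt (mul_nonneg (by positivity) hx.1)]; push_cast; nlinarith [hx.2]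
    rw [sum_eq_single ⟨_, this⟩ (fun n _ hn => if_neg fun h => hn (Fin.ext h.symm)) (by simp)]
    exact if_pos rfl
  have hw : ∀ l : Fin (N + 2) × Bool, Bd fun x => χ l.1 x * τ l.2 x := fun l => (hc _).mul (ht _)
  have w0 : ∀ (l : Fin (N + 2) × Bool) x, |χ l.1 x * τ l.2 x| = χ l.1 x * τ l.2 x := fun l x =>
    abs_of_nonneg (mul_nonneg (c0 _ _) (t0 _ _))
  have w1 : ∀ᵐ x ∂mu, ∑ l : Fin (N + 2) × Bool, χ l.1 x * τ l.2 x = 1 := by
    filter_upwards [c1] with x hx
    simp only [Fintype.sum_prod_type, Fintype.sum_bool, ← mul_add, t1, mul_one, hx]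
  have w2 : ∀ F : ℝ → ℝ, Integrable F mu →
      ∑ l : Fin (N + 2) × Bool, ∫ x, χ l.1 x * τ l.2 x * F x ∂mu = ∫ x, F x ∂mu := fun F hF => by
    rw [← integral_finsetSum _ fun l _ => (hw l).int hF]
    refine integral_congr_ae ?_
    filter_upwards [w1] with x hx
    rw [← sum_mul, hx, one_mul]
  have w3 : ∀ b, ∑ n : Fin (N + 2), ‖mulL mu (hw (n, b)) f‖ = ∫ x, τ b x * |f x| ∂mu := fun b => by
    simp only [norm_mulL, fun n => w0 (n, b)]
    rw [← integral_finsetSum _ fun n _ => (hw (n, b)).int fi]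
    refine integral_congr_ae ?_
    filter_upwards [c1] with x hx
    rw [← sum_mul, ← sum_mul, hx, one_mul]
  refine ⟨N + 2, fun l => mulL mu (hw l) f, fun l => intL mu ((hw l).mul hg),
    ⟨fun v => ?_, fun l => ?_, fun l l' h => ?_, fun l => ?_, w3 true, by linarith [w3 false]⟩,
    ?_, ?_⟩
  · refine (sum_le_sum fun l _ => abs_intL _ v).trans_eq ?_
    simp only [abs_mul _ (g _), g1, mul_one, w0]
    rw [w2 _ (L1.integrable_coeFn v).abs, L1.norm_eq_integral_norm]; rfl
  · rw [intL_mulL, norm_mulL, ← integral_const_mul]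
    refine integral_congr_ae (Filter.Eventually.of_forall fun x => ?_)
    have e : |f x| = |g x * f x| := by rw [abs_mul, g1, one_mul]
    simp only [w0]
    simp only [χd, τd, e]
    split_ifs with h1 h2
    · rw [← h2]
      by_cases h3 : 0 ≤ g x * f x
      · simp [sg, h3, abs_of_nonneg h3]
      · simp [sg, h3, abs_of_neg (not_le.mp h3)]
    all_goals simp
  · rw [intL_mulL]
    refine (integral_congr_ae (Filter.Eventually.of_forall fun x => ?_)).trans (integral_zero _ _)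
    simp only [χd, τd]
    split_ifs with h1 h2 h3 h4
    · exact absurd (Prod.ext (Fin.ext (h1.symm.trans h3)) (h2.symm.trans h4)) h
    all_goals simp
  · rw [norm_mulL]
    refine le_trans (integral_mono_of_nonneg (Filter.Eventually.of_forall fun x => by positivity)
      ((hc l.1).int fi) (Filter.Eventually.of_forall fun x => ?_)) (hN l.1)
    have := (abs_le.mp ((ht l.2).2 x)).2
    simp only [w0]
    exact mul_le_mul_of_nonneg_right (mul_le_of_le_one_right (c0 _ _) this) (abs_nonneg _)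
  · refine Lp.ext ?_
    filter_upwards [Lp.coeFn_fun_finsetSum univ fun l => mulL mu (hw l) f,
      ae_all_iff.mpr fun l => coe_mulL (hw l) f, w1] with x h1 h2 h3
    simp only [h1, h2, ← sum_mul, h3, one_mul]
  · simp only [intL_eq, mul_assoc _ (g _)]
    rw [w2 _ (hg.int (L1.integrable_coeFn u)), L1.norm_eq_integral_norm]
    refine integral_congr_ae (Filter.Eventually.of_forall fun x => ?_)
    simp only [gd, Real.norm_eq_abs]
    split_ifs with h
    · rw [abs_of_nonneg h, one_mul]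
    · rw [abs_of_neg (not_le.mp h)]; ring

lemma bA : Bd fun x : ℝ => if x ≤ 1 / 2 then (1 : ℝ) else 0 :=
  Bd.ite measurableSet_Iic (by simp) (by simp)
lemma bB : Bd fun x : ℝ => if x ≤ 1 / 2 then (0 : ℝ) else 1 :=
  Bd.ite measurableSet_Iic (by simp) (by simp)

noncomputable def RA : LL →L[ℝ] LL := mulL mu bA
noncomputable def RB : LL →L[ℝ] LL := mulL mu bB
noncomputable def iA : LL →L[ℝ] ℝ := intL mu bA
noncomputable def iB : LL →L[ℝ] ℝ := intL mu bB

lemma RA_RB (y : LL) : RA y + RB y = y := by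
  refine Lp.ext ?_
  filter_upwards [Lp.coeFn_add (RA y) (RB y), coe_mulL bA y, coe_mulL bB y] with x h1 h2 h3
  rw [h1, Pi.add_apply, RA, RB, h2, h3]; split_ifs <;> simp

lemma norm_RA_RB (y : LL) : ‖RA y‖ + ‖RB y‖ = ‖y‖ := by
  have hy := (L1.integrable_coeFn y).abs
  have e1 : ∀ x : ℝ, |if x ≤ 1 / 2 then (1 : ℝ) else 0| = if x ≤ 1 / 2 then 1 else 0 := fun x => by
    split_ifs <;> simp
  have e2 : ∀ x : ℝ, |if x ≤ 1 / 2 then (0 : ℝ) else 1| = if x ≤ 1 / 2 then 0 else 1 := fun x => by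
    split_ifs <;> simp
  rw [RA, RB, norm_mulL, norm_mulL, L1.norm_eq_integral_norm]
  simp only [e1, e2]
  rw [← integral_add (bA.int hy) (bB.int hy)]
  exact integral_congr_ae (Filter.Eventually.of_forall fun x => by dsimp only; split_ifs <;> simp)

lemma iA_le (y : LL) : |iA y| ≤ ‖RA y‖ := (abs_intL bA y).trans_eq (norm_mulL bA y).symm
lemma iB_le (y : LL) : |iB y| ≤ ‖RB y‖ := (abs_intL bB y).trans_eq (norm_mulL bB y).symm

lemma iA_RA (y : LL) : iA (RA y) = iA y := by
  rw [iA, RA, intL_mulL, intL_eq]; congr 1; ext x; split_ifs <;> simp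
lemma iB_RB (y : LL) : iB (RB y) = iB y := by
  rw [iB, RB, intL_mulL, intL_eq]; congr 1; ext x; split_ifs <;> simp
lemma iA_RB (y : LL) : iA (RB y) = 0 := by
  rw [iA, RB, intL_mulL, ← integral_zero ℝ ℝ (μ := mu)]; congr 1; ext x; split_ifs <;> simp
lemma iB_RA (y : LL) : iB (RA y) = 0 := by
  rw [iB, RA, intL_mulL, ← integral_zero ℝ ℝ (μ := mu)]; congr 1; ext x; split_ifs <;> simp

lemma exists_one : ∃ y : LL, ‖y‖ = 1 ∧ iA y = 1 / 2 ∧ iB y = 1 / 2 := by
  have h := (memLp_const (μ := mu) (p := 1) (1 : ℝ)).coeFn_toLp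
  set y : LL := (memLp_const (μ := mu) (p := 1) (1 : ℝ)).toLp _
  have n : ‖y‖ = 1 := by
    rw [L1.norm_eq_integral_norm, integral_congr_ae (g := fun _ => (1 : ℝ)) (by
      filter_upwards [h] with x hx; simp [hx])]
    simp
  have a : iA y = 1 / 2 := by
    rw [iA, intL_eq, integral_congr_ae (g := (Set.Iic (1 / 2 : ℝ)).indicator 1) (by
      filter_upwards [h] with x hx; simp [hx, Set.indicator_apply]),
      integral_indicator_one measurableSet_Iic, measureReal_def,
      Measure.restrict_apply measurableSet_Iic,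
      show Set.Iic (1 / 2 : ℝ) ∩ Set.Icc 0 1 = Set.Icc 0 (1 / 2) from Set.ext fun x =>
        ⟨fun h => ⟨h.2.1, h.1⟩, fun h => ⟨h.2, h.1, by linarith [h.2]⟩⟩]
    simp
  have b : iA y + iB y = 1 := by
    rw [iA, iB, intL_eq, intL_eq, ← integral_add (bA.int (L1.integrable_coeFn y))
      (bB.int (L1.integrable_coeFn y)), integral_congr_ae (g := fun _ => (1 : ℝ)) (by
      filter_upwards [h] with x hx; rw [hx]; split_ifs <;> simp)]
    simp
  exact ⟨y, n, a, by linarith⟩

/-- two-block polynomials -/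
theorem upper {k : ℕ} (U V : ℝ → ℝ → ℝ) {C : ℝ} (hC : 0 < C) (hU : C ≤ U 1 0)
    (hp : HP ℝ k fun y : LL => U ((iA + iB) y) ((iA - iB) y) • (RA - RB) y +
      V ((iA + iB) y) ((iA - iB) y) • ContinuousLinearMap.id ℝ LL y)
    (h : ∀ al be a b : ℝ, al + be = 1 → |a| ≤ al → |b| ≤ be →
      |(al - be) * U (a + b) (a - b) + V (a + b) (a - b)| ≤ 1) :
    ∃ B : ML ℝ LL k, pNorm B = 1 ∧ nRad B ≤ 1 / C := by
  obtain ⟨A, hA⟩ := hp
  obtain ⟨y, n, a, b⟩ := exists_one
  refine ex_norm hC A n (hU.trans ?_) fun z φ hz hφ e => ?_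
  · have h1 := iA_le (A fun _ => y)
    have h2 := iB_le (A fun _ => y)
    have h3 : iA (A fun _ => y) - iB (A fun _ => y) = U 1 0 := by
      simp [hA, iA_RA, iA_RB, iB_RA, iB_RB, a, b]; norm_num; ring
    rw [← norm_RA_RB, ← h3]
    linarith [(abs_le.mp h1).2, (abs_le.mp h2).1]
  · have h1 := (le_abs_self _).trans (φ.le_of_opNorm_le hφ.le (RA z))
    have h2 := (le_abs_self _).trans (φ.le_of_opNorm_le hφ.le (RB z))
    have h3 := norm_RA_RB z
    have h4 := congrArg φ (RA_RB z)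
    rw [map_add, e] at h4
    have h5 : φ (RA z) = ‖RA z‖ := by linarith
    have h6 : φ (RB z) = ‖RB z‖ := by linarith
    have := h _ _ _ _ (h3.trans hz) (iA_le z) (iB_le z)
    simpa [hA, h5, h6, e, mul_sub, sub_mul, mul_comm] using this

end Pool.Agent.Lib.PN93
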