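import Pool.Agent.Lib.PN93.L1
import Pool.Agent.Lib.PN93.Four
import Pool.Agent.Lib.PN93.Ineq

/-! The real space `L¹[0,1]`: all orders. -/

namespace Pool.Agent.Lib.PN93

lemma cheb_L1 {k : ℕ} (hk : 1 ≤ k) (A : ML ℝ LL k) (x : LL) (hx : ‖x‖ = 1) :
    ‖A fun _ => x‖ ≤ 2 ^ (k - 1) * nRad A := by
  obtain ⟨s, h0, h1, h⟩ := split_L1 x (A fun _ => x) hx
  obtain ⟨j, rfl⟩ : ∃ j, k = j + 1 := ⟨k - 1, by omega⟩
  refine (split_cheb hk A h).trans (mul_le_mul_of_nonneg_right ?_ (nRad_nonneg A))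
  exact (Hh_mono (abs_le.mpr ⟨by linarith, by linarith⟩) j).2.2

/-- the monomials used below -/
lemma hp2 {k : ℕ} (c c' : ℝ) (i j i' j' : ℕ) (T : LL →L[ℝ] LL) (h : i + j + 1 = k)
    (h' : i' + j' + 1 = k) : HP ℝ k fun y : LL =>
      (c * ((iA + iB) y ^ i * (iA - iB) y ^ j) + c' * ((iA + iB) y ^ i' * (iA - iB) y ^ j')) •
        T y := by
  simpa only [add_smul] using (HP.mono (iA + iB) (iA - iB) T c i j h).add
    (HP.mono (iA + iB) (iA - iB) T c' i' j' h')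

lemma upper2 {k : ℕ} (c₀ c₁ c₂ c₃ : ℝ) (i₀ i₁ j₁ i₂ j₂ i₃ j₃ : ℕ) (h₀ : i₀ + 0 + 1 = k)
    (h₁ : i₁ + j₁ + 1 = k) (h₂ : i₂ + j₂ + 1 = k) (h₃ : i₃ + j₃ + 1 = k) {C : ℝ} (hC : 0 < C)
    (hU : C ≤ c₀ + c₁ * 0 ^ j₁)
    (h : ∀ al be a b : ℝ, al + be = 1 → |a| ≤ al → |b| ≤ be →
      |(al - be) * (c₀ * (a + b) ^ i₀ + c₁ * ((a + b) ^ i₁ * (a - b) ^ j₁)) +
        (c₂ * ((a + b) ^ i₂ * (a - b) ^ j₂) + c₃ * ((a + b) ^ i₃ * (a - b) ^ j₃))| ≤ 1) :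
    ∃ B : ML ℝ LL k, pNorm B = 1 ∧ nRad B ≤ 1 / C :=
  upper (fun s d => c₀ * (s ^ i₀ * d ^ 0) + c₁ * (s ^ i₁ * d ^ j₁))
    (fun s d => c₂ * (s ^ i₂ * d ^ j₂) + c₃ * (s ^ i₃ * d ^ j₃)) hC (by simpa using hU)
    ((hp2 c₀ c₁ i₀ 0 i₁ j₁ (RA - RB) h₀ h₁).add
      (hp2 c₂ c₃ i₂ j₂ i₃ j₃ (ContinuousLinearMap.id ℝ LL) h₂ h₃))
    (by simpa only [pow_zero, mul_one] using h)

theorem low_orders {k : ℕ} (h1 : 1 ≤ k) (h3 : k ≤ 3) : nIdx ℝ LL k = 1 / 2 ^ (k - 1) := by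
  have ex : ∃ B : ML ℝ LL k, pNorm B = 1 ∧ nRad B ≤ 1 / 2 ^ (k - 1) := by
    interval_cases k
    · refine upper2 1 0 0 0 0 0 0 0 0 0 0 rfl rfl rfl rfl (by norm_num) (by norm_num)
        fun al be a b h ha hb => ?_
      have := (abs_nonneg a).trans ha
      have := (abs_nonneg b).trans hb
      rw [abs_le]; constructor <;> linarith
    · refine upper2 2 0 (-1) 0 1 1 0 0 1 0 1 rfl rfl rfl rfl (by norm_num) (by norm_num)
        fun al be a b h ha hb => ?_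
      convert I49.two al be a b h ha hb using 2; ring
    · refine upper2 4 0 (-3) 0 2 2 0 1 1 1 1 rfl rfl rfl rfl (by norm_num) (by norm_num)
        fun al be a b h ha hb => ?_
      convert I49.three al be a b h ha hb using 2; ring
  exact le_antisymm (nIdx_le ex) (le_nIdx (by positivity) ex (cheb_L1 h1))

theorem order_four : nIdx ℝ LL 4 ∈ Set.Icc (1 / 7.99994 : ℝ) (1 / 7.999) := by
  obtain ⟨c0, c1, c2, c3, h0, h⟩ := I49.four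
  have ex := upper2 (k := 4) c0 c1 c2 c3 3 1 2 2 1 0 3 rfl rfl rfl rfl (C := 7.999) (by norm_num)
    (by norm_num at h0 ⊢; exact h0) fun al be a b h1 ha hb => by
      convert h al be a b h1 ha hb using 2; ring
  refine ⟨le_nIdx (by norm_num) ex fun A x hx => ?_, nIdx_le ex⟩
  obtain ⟨s, h0, h1, h⟩ := split_L1 x (A fun _ => x) hx
  exact four_lower A h h0 h1

theorem high_orders {k : ℕ} (hk : 5 ≤ k) :
    nIdx ℝ LL k = ((k : ℝ) - 1) ^ (k - 1) / (k : ℝ) ^ k ∧ 1 / 2 ^ (k - 1) ≤ nIdx ℝ LL k := by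
  obtain ⟨m, rfl⟩ : ∃ m, k = m + 4 := ⟨k - 4, by omega⟩
  obtain ⟨p, q, h⟩ := I49.big m (by omega)
  set M : ℝ := ((m : ℝ) + 4) ^ (m + 4) / ((m : ℝ) + 3) ^ (m + 3) with hM
  have M0 : 0 < M := by positivity
  have ex := upper2 (k := m + 4) M (-(M * p)) (-(M * (((m : ℝ) + 3) / ((m : ℝ) + 4))))
    (M * (p - q / ((m : ℝ) + 4))) (m + 3) (m + 1) 2 (m + 2) 1 m 3 rfl rfl rfl rfl M0 (by simp)
    fun al be a b h1 ha hb => by convert h al be a b h1 ha hb using 2; ring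
  have e : (((m + 4 : ℕ) : ℝ) - 1) = (m : ℝ) + 3 := by push_cast; ring
  have e1 : (((m + 4 : ℕ) : ℝ) - 1) ^ (m + 4 - 1) / ((m + 4 : ℕ) : ℝ) ^ (m + 4) = 1 / M := by
    rw [e, hM, one_div_div]; push_cast; rfl
  refine ⟨?_, le_nIdx (by positivity) ex (cheb_L1 (by omega))⟩
  rw [e1]
  refine le_antisymm (nIdx_le ex) (le_nIdx M0 ex fun A x hx => ?_)
  obtain ⟨s, h0, h1, h⟩ := split_L1 x (A fun _ => x) hx
  have := ray (by omega) A h h0 h1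
  rw [e] at this; push_cast at this
  exact this

theorem all_orders {k : ℕ} (h1 : 1 ≤ k) (h4 : k ≠ 4) :
    nIdx ℝ LL k = max (1 / 2 ^ (k - 1)) (((k : ℝ) - 1) ^ (k - 1) / (k : ℝ) ^ k) := by
  rcases le_or_gt k 3 with h | h
  · rw [low_orders h1 h, max_eq_left]
    interval_cases k <;> norm_num
  · obtain ⟨a, b⟩ := high_orders (k := k) (by omega)
    rw [← a, max_eq_right b]

end Pool.Agent.Lib.PN93
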