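import Pool.Agent.Lib.PN93.Basic

/-! Random sign tests on a decomposition of a vector into small pieces. -/

namespace Pool.Agent.Lib.PN93
open Finset

section Comb
variable {I : Type} [Fintype I] [DecidableEq I] {k : ℕ}

omit [DecidableEq I] in
lemma sum_prod_pow (a : I → ℝ) (k : ℕ) : ∑ i : Fin k → I, ∏ j, a (i j) = (∑ l, a l) ^ k := by
  have := prod_univ_sum (fun _ : Fin k => (univ : Finset I)) fun _ l => a l
  simp only [prod_const, card_univ, Fintype.card_fin, Fintype.piFinset_univ] at this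
  exact this.symm

lemma sum_coin {a : I → ℝ} (ha : ∀ l, 0 ≤ a l) (h1 : ∑ l, a l ≤ 1) {ε : ℝ} (hε : ∀ l, a l ≤ ε)
    (h0 : 0 ≤ ε) {j j' : Fin k} (hj : j ≠ j') :
    ∑ i : Fin k → I, (if i j = i j' then ∏ m, a (i m) else 0) ≤ ε := by
  obtain ⟨n, rfl⟩ : ∃ n, k = n + 1 := ⟨k - 1, by have := j.2; omega⟩
  obtain ⟨j₀, rfl⟩ := Fin.exists_succAbove_eq hj
  rw [← (Fin.insertNthEquiv (fun _ => I) j').sum_comp, Fintype.sum_prod_type_right]
  simp only [Fin.insertNthEquiv_apply, Fin.insertNth_apply_succAbove, Fin.insertNth_apply_same,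
    Fin.prod_univ_succAbove _ j', sum_ite_eq, mem_univ, if_true]
  calc _ ≤ ∑ i : Fin n → I, ε * ∏ m, a (i m) :=
        sum_le_sum fun i _ => mul_le_mul_of_nonneg_right (hε _) (prod_nonneg fun _ _ => ha _)
    _ = ε * (∑ l, a l) ^ n := by rw [← mul_sum, sum_prod_pow]
    _ ≤ ε * 1 := by gcongr; exact pow_le_one₀ (sum_nonneg fun _ _ => ha _) h1
    _ = ε := mul_one _

lemma sum_noninj {a : I → ℝ} (ha : ∀ l, 0 ≤ a l) (h1 : ∑ l, a l ≤ 1) {ε : ℝ} (hε : ∀ l, a l ≤ ε)
    (h0 : 0 ≤ ε) :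
    ∑ i : Fin k → I with ¬ Function.Injective i, ∏ m, a (i m) ≤ k ^ 2 * ε := by
  have hp : ∀ i : Fin k → I, 0 ≤ ∏ m, a (i m) := fun i => prod_nonneg fun _ _ => ha _
  have hq : ∀ (i : Fin k → I) (p : Fin k × Fin k),
      0 ≤ if p.1 ≠ p.2 then (if i p.1 = i p.2 then ∏ m, a (i m) else 0) else 0 := fun i p => by
    split_ifs; exacts [hp i, le_rfl, le_rfl]
  calc _ ≤ ∑ i : Fin k → I, ∑ p : Fin k × Fin k,
        if p.1 ≠ p.2 then (if i p.1 = i p.2 then ∏ m, a (i m) else 0) else 0 := by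
        refine le_trans (sum_le_sum fun i hi => ?_) (sum_le_sum_of_subset_of_nonneg
          (filter_subset _ _) fun i _ _ => sum_nonneg fun p _ => hq i p)
        obtain ⟨j, j', h, hne⟩ := Function.not_injective_iff.mp (mem_filter.mp hi).2
        refine le_trans ?_ (single_le_sum (fun p _ => hq i p) (mem_univ (j, j')))
        simp [h, hne]
    _ ≤ ∑ _p : Fin k × Fin k, ε := by
        rw [sum_comm]
        refine sum_le_sum fun p _ => ?_
        by_cases h : p.1 ≠ p.2
        · simp only [if_pos h]; exact sum_coin ha h1 hε h0 h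
        · simpa [if_neg h] using h0
    _ = _ := by simp [sq]

/-- expectation of a product over distinct coordinates -/
lemma exp_prod (w x y : I → Bool → ℝ) (hw : ∀ l, ∑ b, w l b = 1) {i : Fin k → I}
    (hi : Function.Injective i) (l : I) :
    ∑ ω : I → Bool, (∏ n, w n (ω n)) * (y l (ω l) * ∏ j, x (i j) (ω (i j))) =
      (if ∃ j, i j = l then ∑ b, w l b * (y l b * x l b) else ∑ b, w l b * y l b) *
        ∏ j with i j ≠ l, ∑ b, w (i j) b * x (i j) b := by
  have e : ∀ F : I → ℝ, ∏ j, F (i j) = ∏ n, if ∃ j, i j = n then F n else 1 := fun F => by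
    rw [← prod_filter, ← prod_image (s := univ) (g := i) (f := F) fun _ _ _ _ h => hi h]
    congr 1; ext n; simp
  have h := prod_univ_sum (fun _ : I => (univ : Finset Bool)) fun n b =>
    w n b * ((if n = l then y n b else 1) * if ∃ j, i j = n then x n b else 1)
  rw [Fintype.piFinset_univ] at h
  calc _ = _ := sum_congr rfl fun ω _ => by
        rw [prod_mul_distrib, prod_mul_distrib, ← e fun n => x n (ω n), prod_ite_eq']; simp
    _ = _ := h.symm
    _ = _ := by
        rw [← mul_prod_erase _ _ (mem_univ l), prod_filter,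
          e fun n => if n ≠ l then ∑ b, w n b * x n b else 1, ← mul_prod_erase _ _ (mem_univ l)]
        congr 1
        · by_cases h1 : ∃ j, i j = l <;> simp only [h1, if_true, if_false, mul_one]
        · simp only [ne_eq, not_true, if_false, ite_self, one_mul]
          refine prod_congr rfl fun n hn => ?_
          have := ne_of_mem_erase hn
          by_cases h1 : ∃ j, i j = n <;>
            simp only [h1, this, if_true, if_false, one_mul, mul_one, hw, not_false_eq_true]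
end Comb

variable {X : Type} [NormedAddCommGroup X] [NormedSpace ℝ X] {k : ℕ}

def sg (b : Bool) : ℝ := if b then 1 else -1

lemma sg_sq (b : Bool) : sg b * sg b = 1 := by cases b <;> simp [sg]
lemma abs_sg (b : Bool) : |sg b| = 1 := by cases b <;> simp [sg]

/-- pieces `f l` with functionals `ψ l`, of type `l.2` -/
structure Pc {N : ℕ} (f : Fin N × Bool → X) (ψ : Fin N × Bool → X →L[ℝ] ℝ) (s ε : ℝ) : Prop where
  sum_le : ∀ u, ∑ l, |ψ l u| ≤ ‖u‖
  same : ∀ l, ψ l (f l) = sg l.2 * ‖f l‖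
  diff : ∀ l l', l ≠ l' → ψ l (f l') = 0
  small : ∀ l, ‖f l‖ ≤ ε
  pos : ∑ n, ‖f (n, true)‖ = s
  neg : ∑ n, ‖f (n, false)‖ = 1 - s

/-- the coefficient of a test -/
noncomputable def cf {N : ℕ} (m μ : Bool → ℝ) (θ : ℝ) (i : Fin k → Fin N × Bool)
    (l : Fin N × Bool) : ℝ :=
  (if ∃ j, i j = l then sg l.2 * μ l.2 else θ) * ∏ j with i j ≠ l, m (i j).2

variable {N : ℕ} {f : Fin N × Bool → X} {ψ : Fin N × Bool → X →L[ℝ] ℝ} {s ε : ℝ}

lemma Pc.total (h : Pc f ψ s ε) (a : Bool → ℝ) :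
    ∑ l, a l.2 * ‖f l‖ = a true * s + a false * (1 - s) := by
  rw [Fintype.sum_prod_type_right, Fintype.sum_bool, ← h.neg, ← h.pos, mul_sum, mul_sum]

lemma Pc.eta (h : Pc f ψ s ε) {η : Fin N × Bool → ℝ} (hη : ∀ l, |η l| ≤ 1) (u : X) :
    |∑ l, η l * ψ l u| ≤ ‖u‖ :=
  (abs_sum_le_sum_abs _ _).trans ((sum_le_sum fun l _ => by
    rw [abs_mul]; exact mul_le_of_le_one_left (abs_nonneg _) (hη l)).trans (h.sum_le u))

lemma Pc.err (h : Pc f ψ s ε) (h0 : 0 ≤ ε) (A : ML ℝ X k) {η : Fin N × Bool → ℝ}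
    (hη : ∀ l, |η l| ≤ 1) {ξ : Fin N × Bool → ℝ} {K : ℝ} (hξ : ∀ l, |ξ l| ≤ K) (hK : 0 ≤ K) :
    |∑ l, η l * ψ l (A fun _ => ∑ l, ξ l • f l) - ∑ i : Fin k → Fin N × Bool with
      Function.Injective i, ∑ l, η l * (∏ j, ξ (i j)) * ψ l (A fun j => f (i j))| ≤
      K ^ k * ‖A‖ * (k ^ 2 * ε) := by
  have e : ∑ l, η l * ψ l (A fun _ => ∑ l, ξ l • f l) = ∑ i : Fin k → Fin N × Bool,
      ∑ l, η l * (∏ j, ξ (i j)) * ψ l (A fun j => f (i j)) := by
    rw [A.map_sum fun _ l => ξ l • f l, sum_comm]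
    refine sum_congr rfl fun l _ => ?_
    rw [map_sum, mul_sum]
    refine sum_congr rfl fun i _ => ?_
    rw [A.map_smul_univ (fun j => ξ (i j)) fun j => f (i j), map_smul, smul_eq_mul, mul_assoc]
  rw [e, ← sum_filter_add_sum_filter_not univ Function.Injective, add_sub_cancel_left]
  refine (abs_sum_le_sum_abs _ _).trans ((sum_le_sum (g := fun i => K ^ k * ‖A‖ * ∏ j, ‖f (i j)‖)
    fun i _ => ?_).trans ?_)
  · have h1 : |∏ j, ξ (i j)| ≤ K ^ k := by
      rw [abs_prod]
      simpa using prod_le_prod (s := univ) (fun j _ => abs_nonneg (ξ (i j))) fun j _ => hξ (i j)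
    have h2 := (h.eta hη (A fun j => f (i j))).trans (A.le_opNorm _)
    rw [sum_congr rfl fun l _ => mul_right_comm (η l) _ _, ← sum_mul, abs_mul, mul_comm, mul_assoc]
    gcongr
  · rw [← mul_sum]
    gcongr
    exact sum_noninj (fun l => norm_nonneg (f l)) (by simpa using (h.total fun _ => 1).le)
      h.small h0

lemma Pc.test (h : Pc f ψ s ε) (h0 : 0 ≤ ε) (hk : 1 ≤ k) (A : ML ℝ X k) (m μ : Bool → ℝ) {θ K : ℝ}
    (hm : ∀ b, |m b| ≤ μ b) (hθ : |θ| < 1) (hK : ∀ b, 2 * μ b ≤ K * (1 - |θ|)) :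
    |∑ i : Fin k → Fin N × Bool with Function.Injective i,
      ∑ l, cf m μ θ i l * ψ l (A fun j => f (i j))| ≤
      nRad A * (μ true * s + μ false * (1 - s)) ^ k + K ^ k * (‖A‖ + nRad A) * (k ^ 2 * ε) := by
  have hv := nRad_nonneg A
  have t1 : ∀ b b', 1 - |θ| ≤ 1 + sg b * sg b' * θ := fun b b' => by
    have := neg_abs_le (sg b * sg b' * θ)
    rw [abs_mul, abs_mul, abs_sg, abs_sg] at this; linarith
  have t0 : ∀ b b', 0 < 1 + sg b * sg b' * θ := fun b b' => by linarith [t1 b b']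
  have m0 : ∀ b b', 0 ≤ μ b + sg b' * m b ∧ μ b + sg b' * m b ≤ 2 * μ b := fun b b' => by
    have := abs_le.mp (show |sg b' * m b| ≤ μ b by rw [abs_mul, abs_sg, one_mul]; exact hm b)
    constructor <;> linarith [this.1, this.2]
  have hK0 : 0 ≤ K := by
    have := (abs_nonneg _).trans (hm true)
    by_contra hc
    nlinarith [hK true]
  set w : Fin N × Bool → Bool → ℝ := fun l b => (1 + sg b * sg l.2 * θ) / 2 with hw
  set z : Fin N × Bool → Bool → ℝ := fun l b => (μ l.2 + sg b * m l.2) / (1 + sg b * sg l.2 * θ)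
    with hz
  have z0 : ∀ l b, 0 ≤ z l b := fun l b => div_nonneg (m0 _ _).1 (t0 _ _).le
  have z1 : ∀ l b, z l b ≤ K := fun l b => by
    rw [hz, div_le_iff₀ (t0 _ _)]
    exact ((m0 _ _).2.trans (hK _)).trans (mul_le_mul_of_nonneg_left (t1 _ _) hK0)
  have wz : ∀ l b, w l b * z l b = (μ l.2 + sg b * m l.2) / 2 := fun l b => by
    have := (t0 b l.2).ne'
    simp only [hw, hz]; field_simp
  have w1 : ∀ l, ∑ b, w l b = 1 := fun l => by
    simp only [Fintype.sum_bool, hw, show sg true = 1 from rfl, show sg false = -1 from rfl]; ring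
  have W0 : ∀ ω : Fin N × Bool → Bool, 0 ≤ ∏ n, w n (ω n) := fun ω =>
    prod_nonneg fun n _ => by have := t0 (ω n) n.2; simp only [hw]; positivity
  have W1 : ∑ ω : Fin N × Bool → Bool, ∏ n, w n (ω n) = 1 := by
    have := prod_univ_sum (fun _ : Fin N × Bool => (univ : Finset Bool)) w
    simp only [w1, prod_const_one, Fintype.piFinset_univ] at this
    exact this.symm
  have e1 : ∀ i : Fin k → Fin N × Bool, Function.Injective i → ∀ l, cf m μ θ i l =
      ∑ ω : Fin N × Bool → Bool, (∏ n, w n (ω n)) *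
        (sg (ω l) * sg l.2 * ∏ j, sg (ω (i j)) * z (i j) (ω (i j))) := fun i hi l => by
    rw [exp_prod w (fun l b => sg b * z l b) (fun l b => sg b * sg l.2) w1 hi l, cf]
    congr 1
    · split_ifs
      · have a := wz l true
        have b := wz l false
        simp only [Fintype.sum_bool, sg] at a b ⊢
        simp only [if_true, Bool.false_eq_true, if_false] at a b ⊢
        linear_combination (-(if l.2 = true then 1 else -1 : ℝ)) * (a + b)
      · have := sg_sq l.2
        simp only [Fintype.sum_bool, hw]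
        simp only [sg, if_true, Bool.false_eq_true, if_false] at this ⊢
        linear_combination (-θ) * this
    · refine prod_congr rfl fun j _ => ?_
      have a := wz (i j) true
      have b := wz (i j) false
      simp only [Fintype.sum_bool, sg, if_true, Bool.false_eq_true, if_false] at a b ⊢
      linear_combination b - a
  have e2 : ∀ i : Fin k → Fin N × Bool, Function.Injective i →
      ∑ ω : Fin N × Bool → Bool, (∏ n, w n (ω n)) * ∏ j, z (i j) (ω (i j)) =
        ∏ j, μ (i j).2 := fun i hi => by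
    have e : ∀ l, ∑ b, w l b * z l b = μ l.2 := fun l => by
      simp only [wz, Fintype.sum_bool, sg, if_true, Bool.false_eq_true, if_false]; ring
    have := exp_prod w z (fun _ _ => 1) w1 hi (i ⟨0, hk⟩)
    simp only [one_mul, e, if_pos (⟨_, rfl⟩ : ∃ j, i j = i ⟨0, hk⟩), hi.ne_iff] at this
    rw [this, filter_ne', mul_prod_erase _ (fun j => μ (i j).2) (mem_univ _)]
  have p1 : ∀ ω : Fin N × Bool → Bool, |∑ i : Fin k → Fin N × Bool with Function.Injective i,
      ∑ l, sg (ω l) * sg l.2 * (∏ j, sg (ω (i j)) * z (i j) (ω (i j))) *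
        ψ l (A fun j => f (i j))| ≤
      nRad A * ∑ i : Fin k → Fin N × Bool with Function.Injective i,
        (∏ j, z (i j) (ω (i j))) * ∏ j, ‖f (i j)‖ + K ^ k * (‖A‖ + nRad A) * (k ^ 2 * ε) := by
    intro ω
    have hη : ∀ l, |sg (ω l) * sg l.2| ≤ 1 := fun l => by rw [abs_mul, abs_sg, abs_sg, mul_one]
    have hξ : ∀ l, |sg (ω l) * z l (ω l)| = z l (ω l) := fun l => by
      rw [abs_mul, abs_sg, one_mul, abs_of_nonneg (z0 _ _)]
    have a1 := h.err h0 A hη (fun l => (hξ l).trans_le (z1 _ _)) hK0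
    set y := ∑ l, (sg (ω l) * z l (ω l)) • f l with hy
    set g : X →L[ℝ] ℝ := ∑ l, (sg (ω l) * sg l.2) • ψ l with hg
    have gv : ∀ u, g u = ∑ l, sg (ω l) * sg l.2 * ψ l u := fun u => by
      simp [hg]
    have g1 : ‖g‖ ≤ 1 := g.opNorm_le_bound zero_le_one fun u => by
      rw [gv, one_mul]; exact h.eta hη u
    have y1 : ‖y‖ ≤ ∑ l, z l (ω l) * ‖f l‖ :=
      (norm_sum_le _ _).trans_eq (sum_congr rfl fun l _ => by rw [norm_smul, Real.norm_eq_abs, hξ])
    have y2 : g y = ∑ l, z l (ω l) * ‖f l‖ := by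
      rw [gv]
      refine sum_congr rfl fun l _ => ?_
      rw [hy, map_sum, sum_eq_single l (fun l' _ hl => by simp [h.diff l l' hl.symm]) (by simp),
        map_smul, h.same, smul_eq_mul]
      linear_combination (z l (ω l) * ‖f l‖ * sg l.2 * sg l.2) * sg_sq (ω l) +
        (z l (ω l) * ‖f l‖) * sg_sq l.2
    have y3 : g y = ‖y‖ := le_antisymm ((le_abs_self _).trans (by
      simpa using g.le_of_opNorm_le g1 y)) (y2 ▸ y1)
    have a2 := le_nRad hk A g1 y3
    rw [← y3, y2, ← sum_prod_pow, ← sum_filter_add_sum_filter_not univ Function.Injective, gv,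
      Real.norm_eq_abs] at a2
    simp only [prod_mul_distrib (f := fun j => z _ _)] at a2
    have a3 : ∑ i : Fin k → Fin N × Bool with ¬ Function.Injective i,
        (∏ j, z (i j) (ω (i j))) * ∏ j, ‖f (i j)‖ ≤ K ^ k * (k ^ 2 * ε) := by
      refine (sum_le_sum (g := fun i => K ^ k * ∏ j, ‖f (i j)‖) fun i _ => ?_).trans ?_
      · gcongr
        simpa using prod_le_prod (s := univ) (fun j _ => z0 (i j) _) fun j _ => z1 (i j) (ω (i j))
      · rw [← mul_sum]
        gcongr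
        exact sum_noninj (fun l => norm_nonneg (f l)) (by simpa using (h.total fun _ => 1).le)
          h.small h0
    have a4 := mul_le_mul_of_nonneg_left a3 hv
    rw [abs_sub_comm] at a1
    have a5 := abs_sub_abs_le_abs_sub _ _ |>.trans a1
    linarith
  have μ0 : ∀ b, 0 ≤ μ b := fun b => (abs_nonneg _).trans (hm b)
  calc _ = |∑ ω : Fin N × Bool → Bool, (∏ n, w n (ω n)) *
        ∑ i : Fin k → Fin N × Bool with Function.Injective i, ∑ l, sg (ω l) * sg l.2 *
          (∏ j, sg (ω (i j)) * z (i j) (ω (i j))) * ψ l (A fun j => f (i j))| := by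
        congr 1
        simp only [mul_sum]
        refine (sum_congr rfl fun i hi => ?_).trans sum_comm
        refine (sum_congr rfl fun l _ => ?_).trans sum_comm
        rw [e1 i (mem_filter.mp hi).2, sum_mul]
        exact sum_congr rfl fun ω _ => by ring
    _ ≤ ∑ ω : Fin N × Bool → Bool, (∏ n, w n (ω n)) *
        (nRad A * ∑ i : Fin k → Fin N × Bool with Function.Injective i,
        (∏ j, z (i j) (ω (i j))) * ∏ j, ‖f (i j)‖ + K ^ k * (‖A‖ + nRad A) * (k ^ 2 * ε)) :=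
        (abs_sum_le_sum_abs _ _).trans (sum_le_sum fun ω _ => by
          rw [abs_mul, abs_of_nonneg (W0 ω)]; exact mul_le_mul_of_nonneg_left (p1 ω) (W0 ω))
    _ = nRad A * ∑ i : Fin k → Fin N × Bool with Function.Injective i, ∏ j, μ (i j).2 * ‖f (i j)‖
        + K ^ k * (‖A‖ + nRad A) * (k ^ 2 * ε) := by
        simp only [mul_add, sum_add_distrib, ← sum_mul, W1, one_mul, mul_left_comm _ (nRad A),
          ← mul_sum]
        congr 2
        simp only [mul_sum]
        rw [sum_comm]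
        refine sum_congr rfl fun i hi => ?_
        rw [prod_mul_distrib, ← e2 i (mem_filter.mp hi).2, sum_mul]
        exact sum_congr rfl fun ω _ => by ring
    _ ≤ _ := by
        rw [← h.total, ← sum_prod_pow]
        gcongr
        · exact fun i _ _ => prod_nonneg fun j _ => mul_nonneg (μ0 _) (norm_nonneg _)
        · exact filter_subset _ _

/-- `f` splits into arbitrarily small pieces adapted to a functional norming `u` -/
def Split (f u : X) (s : ℝ) : Prop := ∀ ε > 0, ∃ (N : ℕ) (g : Fin N × Bool → X)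
  (ψ : Fin N × Bool → X →L[ℝ] ℝ), Pc g ψ s ε ∧ ∑ l, g l = f ∧ ∑ l, ψ l u = ‖u‖

lemma prod_type (S : Finset (Fin k)) (τ : Fin k → Bool) : ∃ a a' : ℕ, a + a' = S.card ∧
    ∀ m : Bool → ℝ, ∏ j ∈ S, m (τ j) = m true ^ a * m false ^ a' := by
  refine ⟨_, _, card_filter_add_card_filter_not (s := S) fun j => τ j = true, fun m => ?_⟩
  rw [← prod_filter_mul_prod_filter_not S fun j => τ j = true, ← prod_const, ← prod_const]
  congr 1 <;> refine prod_congr rfl fun j hj => ?_
  · rw [(mem_filter.mp hj).2]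
  · rw [Bool.eq_false_iff.mpr (mem_filter.mp hj).2]

theorem cert (hk : 1 ≤ k) (A : ML ℝ X k) {x : X} (hx : Split x (A fun _ => x) s) {J : Type}
    [Fintype J] (c θ : J → ℝ) (m μ : J → Bool → ℝ) (hm : ∀ T b, |m T b| ≤ μ T b)
    (hθ : ∀ T, |θ T| < 1)
    (H1 : ∀ b a a', a + a' + 1 = k →
      ∑ T, c T * (sg b * μ T b * (m T true ^ a * m T false ^ a')) = 1)
    (H2 : ∀ a a', a + a' = k → ∑ T, c T * (θ T * (m T true ^ a * m T false ^ a')) = 1) :
    ‖A fun _ => x‖ ≤ (∑ T, |c T| * (μ T true * s + μ T false * (1 - s)) ^ k) * nRad A := by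
  have hv := nRad_nonneg A
  have μ0 : ∀ T b, 0 ≤ μ T b := fun T b => (abs_nonneg _).trans (hm T b)
  obtain ⟨K, hK0, hK⟩ : ∃ K : ℝ, 0 ≤ K ∧ ∀ T b, 2 * μ T b ≤ K * (1 - |θ T|) := by
    have h0 : ∀ p : J × Bool, 0 ≤ 2 * μ p.1 p.2 / (1 - |θ p.1|) := fun p =>
      div_nonneg (by linarith [μ0 p.1 p.2]) (by linarith [hθ p.1])
    refine ⟨∑ p : J × Bool, 2 * μ p.1 p.2 / (1 - |θ p.1|), sum_nonneg fun p _ => h0 p,
      fun T b => ?_⟩
    rw [← div_le_iff₀ (by linarith [hθ T])]
    exact single_le_sum (fun p _ => h0 p) (mem_univ (T, b))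
  set D := (‖A‖ + (∑ T, |c T|) * (K ^ k * (‖A‖ + nRad A))) * k ^ 2 with hD
  have D0 : 0 ≤ D := by positivity
  refine le_of_forall_pos_le_add fun δ hδ => ?_
  obtain ⟨N, g, ψ, h, hg, hψ⟩ := hx (δ / (D + 1)) (by positivity)
  have h0 : 0 ≤ δ / (D + 1) := by positivity
  have a1 := h.err h0 A (η := fun _ => 1) (by simp) (ξ := fun _ => 1) (K := 1) (by simp) zero_le_one
  simp only [one_smul, hg, one_mul, hψ, prod_const_one, one_pow] at a1
  have a2 : ∑ i : Fin k → Fin N × Bool with Function.Injective i, ∑ l, ψ l (A fun j => g (i j)) =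
      ∑ T, c T * ∑ i : Fin k → Fin N × Bool with Function.Injective i,
        ∑ l, cf (m T) (μ T) (θ T) i l * ψ l (A fun j => g (i j)) := by
    simp only [mul_sum]
    refine (sum_congr rfl fun i hi => ?_).trans sum_comm
    refine (sum_congr rfl fun l _ => ?_).trans sum_comm
    have hi := (mem_filter.mp hi).2
    obtain ⟨a, a', e1, e2⟩ := prod_type (univ.filter fun j => i j ≠ l) fun j => (i j).2
    simp only [← mul_assoc, ← sum_mul]
    refine (one_mul _).symm.trans (congrArg (· * _) (Eq.symm ?_))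
    simp only [cf, e2]
    split_ifs with h1
    · obtain ⟨j, rfl⟩ := h1
      simp only [hi.ne_iff, filter_ne', card_erase_of_mem (mem_univ j), card_univ,
        Fintype.card_fin] at e1
      exact H1 _ a a' (by omega)
    · rw [filter_true_of_mem (p := fun j => i j ≠ l) fun j _ hj => h1 ⟨j, hj⟩, card_univ, Fintype.card_fin] at e1
      exact H2 a a' e1
  have a3 : |∑ i : Fin k → Fin N × Bool with Function.Injective i, ∑ l, ψ l (A fun j => g (i j))|
      ≤ ∑ T, |c T| * (nRad A * (μ T true * s + μ T false * (1 - s)) ^ k +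
        K ^ k * (‖A‖ + nRad A) * (k ^ 2 * (δ / (D + 1)))) := by
    rw [a2]
    refine (abs_sum_le_sum_abs _ _).trans (sum_le_sum fun T _ => ?_)
    rw [abs_mul]
    exact mul_le_mul_of_nonneg_left (h.test h0 hk A _ _ (hm T) (hθ T) (hK T)) (abs_nonneg _)
  simp only [mul_add, sum_add_distrib, ← sum_mul, mul_left_comm _ (nRad A), ← mul_sum] at a3
  have a4 : D * (δ / (D + 1)) ≤ δ := by
    rw [mul_div_assoc', div_le_iff₀ (by positivity)]; nlinarith
  have a5 := (abs_le.mp a1).2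
  have a6 := (le_abs_self _).trans a3
  rw [hD] at a4
  nlinarith

/-- the ray certificate -/
theorem ray (hk : 3 ≤ k) (A : ML ℝ X k) {x : X} (hx : Split x (A fun _ => x) s) (h0 : 0 ≤ s)
    (h1 : s ≤ 1) : ‖A fun _ => x‖ ≤ (k : ℝ) ^ k / ((k : ℝ) - 1) ^ (k - 1) * nRad A := by
  obtain ⟨j, rfl⟩ : ∃ j, k = j + 1 := ⟨k - 1, by omega⟩
  have hj : (2 : ℝ) ≤ j := by exact_mod_cast (by omega : 2 ≤ j)
  obtain ⟨n, hn⟩ : ∃ n : ℝ, n = j := ⟨_, rfl⟩
  rw [← hn] at hj
  obtain ⟨d, hd⟩ : ∃ d : ℝ, d * (n + 1) = n * (2 * s - 1) := ⟨n * (2 * s - 1) / (n + 1), by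
    field_simp⟩
  have d1 : d < 1 := by nlinarith
  have d2 : -1 < d := by nlinarith
  have d3 : 0 ≤ (2 * s - 1) * d := by nlinarith [sq_nonneg (2 * s - 1)]
  have c1 : 0 < n + d := by linarith
  have c2 : 0 < n - d := by linarith
  have n0 : 0 < n := by linarith
  have k1 : 0 ≤ 2 * (1 - d) / (n + d) := by have := sub_pos.mpr d1; positivity
  have k2 : 0 ≤ 2 * (1 + d) / (n - d) := div_nonneg (by linarith) c2.le
  have := cert (by omega) A hx (J := Bool) (fun T => if T then (n + d) / 2 else -((n - d) / 2))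
    (fun T => if T then 1 / n else -(1 / n)) (fun _ _ => 1)
    (fun T b => if T then (if b then 1 + 2 * (1 - d) / (n + d) else 1) else
      if b then 1 else 1 + 2 * (1 + d) / (n - d))
    (fun T b => by cases T <;> cases b <;> simp [k1, k2])
    (fun T => by
      have : |1 / n| < 1 := by rw [abs_of_pos (by positivity), div_lt_one n0]; linarith
      cases T <;> simpa using this)
    (fun b a a' _ => by cases b <;> simp [sg] <;> field_simp <;> ring)
    (fun a a' _ => by simp; field_simp; ring)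
  refine this.trans (mul_le_mul_of_nonneg_right ?_ (nRad_nonneg A))
  simp only [Fintype.sum_bool, if_true, Bool.false_eq_true, if_false, abs_neg]
  have b1 : (1 + 2 * (1 - d) / (n + d)) * s + 1 * (1 - s) ≤ (n + 1) / n := by
    rw [show (1 + 2 * (1 - d) / (n + d)) * s + 1 * (1 - s) = 1 + 2 * (1 - d) * s / (n + d) by ring,
      add_div, div_self n0.ne', add_le_add_iff_left, div_le_div_iff₀ c1 n0]
    nlinarith
  have b2 : 1 * s + (1 + 2 * (1 + d) / (n - d)) * (1 - s) ≤ (n + 1) / n := by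
    rw [show 1 * s + (1 + 2 * (1 + d) / (n - d)) * (1 - s) = 1 + 2 * (1 + d) * (1 - s) / (n - d) by
      ring, add_div, div_self n0.ne', add_le_add_iff_left, div_le_div_iff₀ c2 n0]
    nlinarith
  have s1 : 0 ≤ 1 - s := by linarith
  rw [abs_of_pos (by positivity), abs_of_pos (by positivity)]
  calc _ ≤ (n + d) / 2 * ((n + 1) / n) ^ (j + 1) + (n - d) / 2 * ((n + 1) / n) ^ (j + 1) := by
        gcongr
    _ = _ := by push_cast; rw [← hn, div_pow, pow_succ n]; simp; field_simp; ring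

/-- the Chebyshev bound in a space that splits -/
theorem split_cheb (hk : 1 ≤ k) (A : ML ℝ X k) {x : X} (hx : Split x (A fun _ => x) s) :
    ‖A fun _ => x‖ ≤ Hh 1 (2 * s - 1) k * nRad A := by
  obtain ⟨N, g, ψ, h, hg, hψ⟩ := hx 1 one_pos
  set φ : X →L[ℝ] ℝ := ∑ l, ψ l with hφ
  have pv : ∀ u, φ u = ∑ l, ψ l u := fun u => by simp [hφ]
  have p1 : ‖φ‖ ≤ 1 := φ.opNorm_le_bound zero_le_one fun u => by
    simpa [pv] using h.eta (η := fun _ => 1) (by simp) u
  have p2 : ∀ l, φ (g l) = sg l.2 * ‖g l‖ := fun l => by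
    rw [pv, sum_eq_single l (fun l' _ hl => h.diff l' l hl) (by simp), h.same]
  obtain ⟨y, hy⟩ : ∃ y, y = ∑ n, g (n, true) := ⟨_, rfl⟩
  obtain ⟨z, hz⟩ : ∃ z, z = -∑ n, g (n, false) := ⟨_, rfl⟩
  have e : x = y - z := by rw [← hg, Fintype.sum_prod_type_right, Fintype.sum_bool, hy, hz]; simp
  have y1 : ‖y‖ ≤ s := hy ▸ h.pos ▸ norm_sum_le _ _
  have z1 : ‖z‖ ≤ 1 - s := by rw [hz, norm_neg, ← h.neg]; exact norm_sum_le _ _
  have y2 : φ y = s := by rw [hy, map_sum, ← h.pos]; simp [p2, sg]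
  have z2 : φ z = 1 - s := by rw [hz, map_neg, map_sum, ← h.neg]; simp [p2, sg]
  have s0 := (norm_nonneg _).trans y1
  have s1 := (norm_nonneg _).trans z1
  have un : ∀ (y : X) (s : ℝ), 0 < s → ‖y‖ ≤ s → φ y = s →
      ‖s⁻¹ • y‖ ≤ 1 ∧ φ (s⁻¹ • y) = 1 ∧ s • s⁻¹ • y = y := fun y s hs a b =>
    ⟨by rw [norm_smul, norm_inv, Real.norm_of_nonneg hs.le, inv_mul_le_iff₀ hs]; linarith,
      by simp [b, hs.ne'], by simp [smul_smul, hs.ne']⟩
  obtain ⟨u₁, u₂, n₁, n₂, q₁, q₂, e2⟩ : ∃ u₁ u₂ : X, ‖u₁‖ ≤ 1 ∧ ‖u₂‖ ≤ 1 ∧ φ u₁ = 1 ∧ φ u₂ = 1 ∧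
      x = s • u₁ - (1 - s) • u₂ := by
    rcases s0.eq_or_lt with rfl | s0
    · have : y = 0 := norm_le_zero_iff.mp y1
      exact ⟨z, z, by simpa using z1, by simpa using z1, by simpa using z2, by simpa using z2,
        by simp [e, this]⟩
    rcases s1.eq_or_lt with s1 | s1
    · obtain rfl : s = 1 := by linarith
      have : z = 0 := norm_le_zero_iff.mp (by simpa using z1)
      exact ⟨y, y, y1, y1, y2, y2, by simp [e, this]⟩
    obtain ⟨a1, a2, a3⟩ := un y s s0 y1 y2
    obtain ⟨b1, b2, b3⟩ := un z (1 - s) s1 z1 z2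
    exact ⟨_, _, a1, b1, a2, b2, by rw [a3, b3, e]⟩
  have := cheb hk A p1 n₁ n₂ q₁ q₂ s0 s1 (by ring)
  rw [← e2, pv, hψ, abs_norm, show s - (1 - s) = 2 * s - 1 by ring, mul_comm] at this
  exact this

end Pool.Agent.Lib.PN93
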